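import Mathlib

/-!
# MP_682720: the conjectured maximum of `F(B) = 4 schur(B) - 3 |B|^2` (definitions)

`W b v`: `v` is the value of one of the two types of extremal configurations for sets of size `b`
in the finite abelian group `G`:
type I: a subgroup `K` minus a sum free subset of `K`, value `(3 b - 2 |K|)^2`;
type II: `2 j + 1` cosets of a subgroup `H` in arithmetic progression, with `s` elements missing or
with `s` more elements, value `(|H| - s) (|H| - 5 s)`.
-/

set_option autoImplicit false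

namespace Pool.Agent.GL

variable {G : Type*} [AddCommGroup G]

/-- the number of Schur triples of `B` -/
def sch [DecidableEq G] (B : Finset G) : ℤ :=
  (((B ×ˢ B).filter (fun p => p.1 + p.2 ∈ B)).card : ℤ)

/-- `F(B) = 4 schur(B) - 3 |B|^2` -/
def FF [DecidableEq G] (B : Finset G) : ℤ := 4 * sch B - 3 * (B.card : ℤ) ^ 2

/-- some element of `G / H` has order at least `t` (equivalently: the exponent of `G / H` is at
least `t`) -/
def Alive (H : AddSubgroup G) (t : ℕ) : Prop := ∃ g : G, ∀ i : ℕ, 0 < i → i < t → i • g ∉ H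

/-- `S` has no `x, y` with `x + y` in `S` -/
def SF (S : Finset G) : Prop := ∀ x ∈ S, ∀ y ∈ S, x + y ∉ S

/-- type I value -/
def WI (G : Type*) [AddCommGroup G] (b : ℕ) (v : ℤ) : Prop :=
  ∃ (K : AddSubgroup G) (S : Finset G), (∀ x ∈ S, x ∈ K) ∧ SF S ∧ S.card + b = Nat.card K ∧
    v = (3 * (b : ℤ) - 2 * (Nat.card K : ℤ)) ^ 2

/-- type II value -/
def WII (G : Type*) [AddCommGroup G] (b : ℕ) (v : ℤ) : Prop :=
  ∃ (H : AddSubgroup G) (j s : ℕ), s ≤ Nat.card H ∧
    v = ((Nat.card H : ℤ) - s) * ((Nat.card H : ℤ) - 5 * s) ∧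
    ((b + s = (2 * j + 1) * Nat.card H ∧ Alive H (3 * j + 1)) ∨
      (b = (2 * j + 1) * Nat.card H + s ∧ Alive H (3 * j + 2)))

/-- `v` is one of the values of which `f_G(b)` is the maximum -/
def W (G : Type*) [AddCommGroup G] (b : ℕ) (v : ℤ) : Prop := WI G b v ∨ WII G b v

/-- `F ≤ f_G(b)` -/
def Bd (G : Type*) [AddCommGroup G] (b : ℕ) (F : ℤ) : Prop := ∃ v, W G b v ∧ F ≤ v

end Pool.Agent.GL
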