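import Pool.Agent.Lib_helper28.GL.Defs

/-!
# Existence of witnesses
-/

set_option autoImplicit false

namespace Pool.Agent.GL

open Finset

variable {G : Type*} [AddCommGroup G]

theorem Alive.mono {H : AddSubgroup G} {t t' : ℕ} (h : Alive H t) (ht : t' ≤ t) : Alive H t' := by
  obtain ⟨g, hg⟩ := h
  exact ⟨g, fun i h0 h1 => hg i h0 (lt_of_lt_of_le h1 ht)⟩

theorem Alive.le {H M : AddSubgroup G} {t : ℕ} (h : Alive M t) (hHM : H ≤ M) : Alive H t := by
  obtain ⟨g, hg⟩ := h
  exact ⟨g, fun i h0 h1 h2 => hg i h0 h1 (hHM h2)⟩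

theorem alive_one (H : AddSubgroup G) : Alive H 1 := ⟨0, fun i h0 h1 => by omega⟩

theorem alive_two {H : AddSubgroup G} (h : H ≠ ⊤) : Alive H 2 := by
  obtain ⟨g, hg⟩ : ∃ g, g ∉ H := by
    by_contra hh
    push Not at hh
    exact h (eq_top_iff.2 fun x _ => hh x)
  exact ⟨g, fun i h0 h1 => by
    have : i = 1 := by omega
    subst this; simpa using hg⟩

theorem WII_above {K : AddSubgroup G} (hK : K ≠ ⊤) {b : ℕ} (h1 : Nat.card K ≤ b)
    (h2 : b ≤ 2 * Nat.card K) :
    W G b ((2 * (Nat.card K : ℤ) - b) * (6 * (Nat.card K : ℤ) - 5 * b)) := by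
  right
  refine ⟨K, 0, b - Nat.card K, by omega, ?_, Or.inr ⟨by omega, alive_two hK⟩⟩
  push_cast [Nat.cast_sub h1]
  ring

theorem W_zero [Finite G] : W G 0 0 := by
  right
  refine ⟨⊥, 0, 1, ?_, ?_, Or.inl ⟨?_, alive_one _⟩⟩
  · simp
  · simp
  · simp

/-- `Bd` is monotone -/
theorem Bd.mono {b : ℕ} {F F' : ℤ} (h : Bd G b F) (hF : F' ≤ F) : Bd G b F' := by
  obtain ⟨v, hv, hFv⟩ := h
  exact ⟨v, hv, hF.trans hFv⟩

/-- a sum free subset of a finite subgroup has at most half of its elements -/
theorem SF_card [Finite G] [DecidableEq G] {K : AddSubgroup G} {S : Finset G}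
    (hS : ∀ x ∈ S, x ∈ K) (hf : SF S) : 2 * S.card ≤ Nat.card K := by
  classical
  have := Fintype.ofFinite G
  rcases S.eq_empty_or_nonempty with h0 | ⟨x, hx⟩
  · subst h0; simp
  · have hK : (univ.filter (· ∈ K) : Finset G).card = Nat.card K := by
      rw [Nat.card_eq_fintype_card, Fintype.card_subtype]
    have hsub : S ∪ S.image (fun y => x + y) ⊆ (univ.filter (· ∈ K) : Finset G) := by
      intro y hy
      rw [mem_filter]
      refine ⟨mem_univ _, ?_⟩
      rcases mem_union.1 hy with h | h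
      · exact hS y h
      · obtain ⟨z, hz, rfl⟩ := mem_image.1 h
        exact K.add_mem (hS x hx) (hS z hz)
    have hdisj : Disjoint S (S.image (fun y => x + y)) := by
      rw [disjoint_left]
      intro y hy h
      obtain ⟨z, hz, rfl⟩ := mem_image.1 h
      exact hf x hx z hz hy
    have := card_le_card hsub
    rw [card_union_of_disjoint hdisj, card_image_of_injective _ (add_right_injective x), hK] at this
    omega

/-- the data attached to a subgroup: the exponent `E` of the quotient and a subgroup `K` with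
`K / H` cyclic of order `E` -/
theorem exists_level [Finite G] (H : AddSubgroup G) :
    ∃ E : ℕ, 1 ≤ E ∧ (∀ t, Alive H t → t ≤ E) ∧ Alive H E ∧
      ∃ K : AddSubgroup G, H ≤ K ∧ Nat.card K = E * Nat.card H ∧
        ∀ t, t ≤ (E / 3) * Nat.card H →
          ∃ S : Finset G, (∀ x ∈ S, x ∈ K) ∧ SF S ∧ S.card = t := by
  classical
  have := Fintype.ofFinite G
  have : Finite (G ⧸ H) := inferInstance
  obtain ⟨gb, hgb⟩ := AddMonoid.exists_addOrderOf_eq_exponent (G := G ⧸ H)
    (AddMonoid.ExponentExists.of_finite)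
  obtain ⟨g, rfl⟩ := QuotientAddGroup.mk_surjective gb
  set E := AddMonoid.exponent (G ⧸ H) with hE
  have hEpos : 0 < E := by
    rw [hE]; exact AddMonoid.exponent_pos.2 (AddMonoid.ExponentExists.of_finite)
  have key : ∀ i : ℕ, i • g ∈ H ↔ E ∣ i := by
    intro i
    rw [← QuotientAddGroup.eq_zero_iff, QuotientAddGroup.mk_nsmul, ← hgb]
    exact addOrderOf_dvd_iff_nsmul_eq_zero.symm
  have keyZ : ∀ i : ℤ, i • g ∈ H ↔ (E : ℤ) ∣ i := by
    intro i
    rw [← QuotientAddGroup.eq_zero_iff, QuotientAddGroup.mk_zsmul, ← hgb]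
    exact addOrderOf_dvd_iff_zsmul_eq_zero.symm
  refine ⟨E, hEpos, ?_, ⟨g, fun i h0 h1 h2 => ?_⟩, H ⊔ AddSubgroup.zmultiples g, le_sup_left, ?_, ?_⟩
  · intro t ⟨x, hx⟩
    have h1 : addOrderOf (x : G ⧸ H) ∣ E := AddMonoid.addOrder_dvd_exponent _
    have h2 : 0 < addOrderOf (x : G ⧸ H) := addOrderOf_pos _
    by_contra hlt
    push Not at hlt
    have h3 : addOrderOf (x : G ⧸ H) < t := lt_of_le_of_lt (Nat.le_of_dvd hEpos h1) hlt
    refine hx _ h2 h3 ?_
    rw [← QuotientAddGroup.eq_zero_iff, QuotientAddGroup.mk_nsmul]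
    exact addOrderOf_nsmul_eq_zero _
  · have := Nat.le_of_dvd h0 ((key i).1 h2)
    omega
  · -- the order of `K`
    have hbij : Function.Bijective (fun p : Fin E × H =>
        (⟨(p.1 : ℕ) • g + (p.2 : G), AddSubgroup.add_mem _
          (AddSubgroup.mem_sup_right (AddSubgroup.nsmul_mem _ (AddSubgroup.mem_zmultiples g) _))
          (AddSubgroup.mem_sup_left p.2.2)⟩ :
          (H ⊔ AddSubgroup.zmultiples g : AddSubgroup G))) := by
      constructor
      · rintro ⟨i, x⟩ ⟨j, y⟩ hxy
        simp only [Subtype.mk.injEq] at hxy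
        have h1 : ((i : ℤ) - (j : ℤ)) • g ∈ H := by
          have : ((i : ℤ) - (j : ℤ)) • g = (y : G) - x := by
            rw [sub_smul, natCast_zsmul, natCast_zsmul, sub_eq_sub_iff_add_eq_add]
            rw [hxy]; abel
          rw [this]; exact H.sub_mem y.2 x.2
        have h2 := (keyZ _).1 h1
        have hi := i.2
        have hj := j.2
        have h3 : (i : ℤ) - (j : ℤ) = 0 := by
          refine Int.eq_zero_of_abs_lt_dvd h2 ?_
          rw [abs_lt]; constructor <;> omega
        have h4 : i = j := Fin.ext (by omega)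
        subst h4
        have h5 : (x : G) = y := by simpa using hxy
        exact Prod.ext rfl (Subtype.ext h5)
      · rintro ⟨z, hz⟩
        obtain ⟨x, hx, w, hw, rfl⟩ := AddSubgroup.mem_sup.1 hz
        obtain ⟨l, rfl⟩ := AddSubgroup.mem_zmultiples_iff.1 hw
        have hEz : (E : ℤ) ≠ 0 := by exact_mod_cast hEpos.ne'
        have h1 : ((l / E) * E : ℤ) • g ∈ H := (keyZ _).2 (dvd_mul_left _ _)
        have h2 : 0 ≤ l % E := Int.emod_nonneg _ hEz
        have h3 : l % E < E := Int.emod_lt_of_pos _ (by exact_mod_cast hEpos)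
        refine ⟨⟨⟨(l % E).toNat, by omega⟩, ⟨x + ((l / E) * E : ℤ) • g, H.add_mem hx h1⟩⟩, ?_⟩
        apply Subtype.ext
        have h4 : ((l % E).toNat : ℕ) • g = (l % E) • g := by
          rw [← natCast_zsmul, Int.toNat_of_nonneg h2]
        have h5 : l • g = (l % E) • g + ((l / E) * E : ℤ) • g := by
          rw [← add_zsmul]; congr 1
          have := Int.emod_add_ediv_mul l E
          linarith
        simp only
        rw [h4, h5]; abel
    rw [← Nat.card_eq_of_bijective _ hbij, Nat.card_prod]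
    simp
  · -- the sum free sets
    intro t ht
    set q := E / 3 with hq
    have hqE : 3 * q ≤ E := by omega
    let f : ℕ × H → G := fun p => p.1 • g + (p.2 : G)
    set S0 : Finset G := ((Finset.Icc (q + 1) (2 * q)) ×ˢ (univ : Finset H)).image f with hS0
    have hcard : S0.card = q * Nat.card H := by
      rw [hS0, card_image_of_injOn, card_product, Nat.card_Icc, card_univ,
        Nat.card_eq_fintype_card]
      · congr 1; omega
      · rintro ⟨i, x⟩ hi ⟨j, y⟩ hj hxy
        simp only [coe_product, Set.mem_prod, mem_coe, mem_Icc, mem_univ, and_true] at hi hj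
        simp only [f] at hxy
        have h1 : ((i : ℤ) - (j : ℤ)) • g ∈ H := by
          have : ((i : ℤ) - (j : ℤ)) • g = (y : G) - x := by
            rw [sub_smul, natCast_zsmul, natCast_zsmul, sub_eq_sub_iff_add_eq_add]
            rw [hxy]; abel
          rw [this]; exact H.sub_mem y.2 x.2
        have h2 := (keyZ _).1 h1
        have h3 : (i : ℤ) - (j : ℤ) = 0 := by
          refine Int.eq_zero_of_abs_lt_dvd h2 ?_
          rw [abs_lt]; constructor <;> omega
        have h4 : i = j := by omega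
        subst h4
        have h5 : (x : G) = y := by simpa using hxy
        exact Prod.ext rfl (Subtype.ext h5)
    obtain ⟨S, hSS, hSc⟩ := Finset.exists_subset_card_eq (s := S0) (n := t) (by rw [hcard]; exact ht)
    have mem0 : ∀ x ∈ S0, ∃ i : ℕ, q + 1 ≤ i ∧ i ≤ 2 * q ∧ x - i • g ∈ H := by
      intro x hx
      obtain ⟨⟨i, y⟩, hi, rfl⟩ := mem_image.1 hx
      simp only [mem_product, mem_Icc, mem_univ, and_true] at hi
      exact ⟨i, hi.1, hi.2, by simp [f]⟩
    refine ⟨S, fun x hx => ?_, fun x hx y hy hxy => ?_, hSc⟩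
    · obtain ⟨i, _, _, h⟩ := mem0 x (hSS hx)
      have : x = (x - i • g) + i • g := by abel
      rw [this]
      exact AddSubgroup.add_mem _ (AddSubgroup.mem_sup_left h)
        (AddSubgroup.mem_sup_right (AddSubgroup.nsmul_mem _ (AddSubgroup.mem_zmultiples g) _))
    · obtain ⟨i, hi1, hi2, hi⟩ := mem0 x (hSS hx)
      obtain ⟨j, hj1, hj2, hj⟩ := mem0 y (hSS hy)
      obtain ⟨l, hl1, hl2, hl⟩ := mem0 _ (hSS hxy)
      have h1 : (i + j - l) • g ∈ H := by
        have : (i + j - l) • g = (x + y - l • g) - (x - i • g) - (y - j • g) := by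
          have h2 : (i + j - l) • g + l • g = i • g + j • g := by
            rw [← add_nsmul, ← add_nsmul]; congr 1; omega
          have h3 : (i + j - l) • g = i • g + j • g - l • g := by
            rw [← h2]; abel
          rw [h3]; abel
        rw [this]
        exact H.sub_mem (H.sub_mem hl hi) hj
      have h2 := Nat.le_of_dvd (by omega) ((key _).1 h1)
      omega

end Pool.Agent.GL
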