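import Pool.Agent.Lib_helper28.GL.Defs

/-!
# The combinatorial gluing lemma
-/

set_option autoImplicit false

namespace Pool.Agent.GL

open Finset

variable {G : Type*} [AddCommGroup G] [DecidableEq G]

/-- `N(X, Y, Z)`: the number of `(x, y)` in `X × Y` with `x + y` in `Z` -/
def NN (X Y Z : Finset G) : ℤ := ∑ x ∈ X, ∑ y ∈ Y, if x + y ∈ Z then 1 else 0

theorem sch_eq (B : Finset G) : sch B = NN B B B := by
  unfold sch NN
  rw [card_filter, sum_product]
  push_cast
  rfl

theorem NN_alt (X Y Z : Finset G) :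
    NN X Y Z = ∑ y ∈ Y, ∑ z ∈ Z, if z - y ∈ X then (1 : ℤ) else 0 := by
  unfold NN
  rw [sum_comm]
  refine sum_congr rfl fun y _ => ?_
  rw [← sum_filter, ← sum_filter]
  refine sum_nbij' (fun x => x + y) (fun z => z - y) ?_ ?_ ?_ ?_ ?_
  · intro x hx
    simp only [mem_filter] at hx ⊢
    refine ⟨hx.2, ?_⟩
    simpa using hx.1
  · intro z hz
    simp only [mem_filter] at hz ⊢
    refine ⟨hz.2, ?_⟩
    simpa using hz.1
  · intro x _; simp
  · intro z _; simp
  · intro x _; rfl

theorem NN_comm (X Y Z : Finset G) : NN X Y Z = NN Y X Z := by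
  unfold NN
  rw [sum_comm]
  refine sum_congr rfl fun y _ => sum_congr rfl fun x _ => ?_
  rw [add_comm]

/-- **Combinatorial gluing lemma.**  `c = |B ∩ M|`, `r = |B \ M|`, `t` the number of the elements
`x` of `B \ M` with `2 x` in `M`. -/
theorem glue_comb (M : AddSubgroup G) [DecidablePred (· ∈ M)] (B : Finset G) (c r t : ℤ)
    (hc : c = ((B.filter (· ∈ M)).card : ℤ)) (hr : r = ((B.filter (· ∉ M)).card : ℤ))
    (ht : t = (((B.filter (· ∉ M)).filter (fun x => x + x ∈ M)).card : ℤ)) :
    FF B ≤ FF (B.filter (· ∈ M)) - 6 * c * r + 5 * r ^ 2 + 4 * t * (3 * t - 2 * r) := by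
  set B0 := B.filter (· ∈ M) with hB0
  set R := B.filter (· ∉ M) with hR
  have hb : (B.card : ℤ) = c + r := by
    rw [hc, hr, ← Nat.cast_add, hB0, hR, Finset.card_filter_add_card_filter_not]
  have m0 : ∀ x, x ∈ B0 ↔ x ∈ B ∧ x ∈ M := fun x => by rw [hB0, mem_filter]
  have mR : ∀ x, x ∈ R ↔ x ∈ B ∧ x ∉ M := fun x => by rw [hR, mem_filter]
  -- the decomposition of the number of Schur triples
  have split : ∀ f : G → ℤ, ∑ x ∈ B, f x = ∑ x ∈ B0, f x + ∑ x ∈ R, f x := fun f => by
    rw [hB0, hR]; exact (sum_filter_add_sum_filter_not B (· ∈ M) f).symm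
  have s1 : NN B B B = NN B0 B0 B0 + 2 * NN B0 R R + NN R R B0 + NN R R R := by
    have e1 : NN B B B = NN B0 B0 B + NN B0 R B + (NN R B0 B + NN R R B) := by
      unfold NN
      rw [split, ← sum_add_distrib, ← sum_add_distrib]
      congr 1 <;> exact sum_congr rfl fun x _ => split _
    have e2 : NN B0 B0 B = NN B0 B0 B0 := by
      unfold NN
      refine sum_congr rfl fun x hx => sum_congr rfl fun y hy => ?_
      have : x + y ∈ M := M.add_mem ((m0 x).1 hx).2 ((m0 y).1 hy).2
      simp only [m0, this, and_true]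
    have e3 : NN B0 R B = NN B0 R R := by
      unfold NN
      refine sum_congr rfl fun x hx => sum_congr rfl fun y hy => ?_
      have : x + y ∉ M := fun h => ((mR y).1 hy).2 (by
        have := M.sub_mem h ((m0 x).1 hx).2
        simpa using this)
      simp only [mR, this, not_false_eq_true, and_true]
    have e4 : NN R B0 B = NN B0 R R := by rw [NN_comm, e3]
    have e5 : NN R R B = NN R R B0 + NN R R R := by
      unfold NN
      rw [← sum_add_distrib]
      refine sum_congr rfl fun x hx => ?_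
      rw [← sum_add_distrib]
      refine sum_congr rfl fun y hy => ?_
      by_cases h1 : x + y ∈ B <;> by_cases h2 : x + y ∈ M <;> simp [m0, mR, h1, h2]
    rw [e1, e2, e3, e4, e5]; ring
  have a1 := NN_alt B0 R R
  have a3 := NN_alt R R R
  set P : G → G → ℤ := fun y z => if z - y ∈ B0 then 1 else 0 with hP
  set Q : G → G → ℤ := fun y z => if y + z ∈ B0 then 1 else 0 with hQ
  have cardR : (∑ y ∈ R, ∑ _z ∈ R, (1 : ℤ)) = r ^ 2 := by
    simp only [sum_const, nsmul_eq_mul, mul_one]; rw [hr]; ring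
  -- p_- + W ≤ r²
  have b1 : NN B0 R R + NN R R R ≤ r ^ 2 := by
    rw [a1, a3, ← sum_add_distrib, ← cardR]
    refine sum_le_sum fun y _ => ?_
    rw [← sum_add_distrib]
    refine sum_le_sum fun z _ => ?_
    by_cases h2 : z - y ∈ M
    · have h3 : z - y ∉ R := fun h => ((mR _).1 h).2 h2
      rw [if_neg h3]; split_ifs <;> norm_num
    · have h3 : z - y ∉ B0 := fun h => h2 ((m0 _).1 h).2
      rw [if_neg h3]; split_ifs <;> norm_num
  -- p_- + p_+ ≤ 2 t² + (r - t)²
  have b2 : NN B0 R R + NN R R B0 ≤ 2 * t ^ 2 + (r - t) ^ 2 := by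
    have e : NN B0 R R + NN R R B0 = ∑ y ∈ R, ∑ z ∈ R, (P y z + Q y z) := by
      rw [a1]; unfold NN; rw [← sum_add_distrib]
      exact sum_congr rfl fun y _ => by rw [← sum_add_distrib]
    set T := R.filter (fun x => x + x ∈ M) with hT
    set T' := R.filter (fun x => ¬ (x + x ∈ M)) with hT'
    have hT'c : (T'.card : ℤ) = r - t := by
      have := Finset.card_filter_add_card_filter_not (s := R) (fun x => x + x ∈ M)
      rw [hr, ht]
      have h2 : (T.card : ℤ) + T'.card = R.card := by rw [← Nat.cast_add, hT, hT', this]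
      linarith
    have splitR : ∀ f : G → ℤ, ∑ x ∈ R, f x = ∑ x ∈ T, f x + ∑ x ∈ T', f x := fun f => by
      rw [hT, hT']; exact (sum_filter_add_sum_filter_not R (fun x => x + x ∈ M) f).symm
    have bound : ∀ y ∈ R, ∀ z ∈ R, P y z + Q y z ≤
        (if y + y ∈ M then (if z + z ∈ M then 2 else 0) else (if z + z ∈ M then 0 else 1)) := by
      intro y hy z hz
      have f1 : z - y ∈ M → (z + z ∈ M ↔ y + y ∈ M) := fun h => by
        have : z + z = (z - y) + (z - y) + (y + y) := by abel
        rw [this]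
        exact (M.add_mem_cancel_left (M.add_mem h h))
      have f2 : y + z ∈ M → (z + z ∈ M ↔ y + y ∈ M) := fun h => by
        constructor
        · intro hh
          have : y + y = (y + z) + (y + z) - (z + z) := by abel
          rw [this]; exact M.sub_mem (M.add_mem h h) hh
        · intro hh
          have : z + z = (y + z) + (y + z) - (y + y) := by abel
          rw [this]; exact M.sub_mem (M.add_mem h h) hh
      have f3 : z - y ∈ M → y + z ∈ M → y + y ∈ M := fun h h' => by
        have : y + y = (y + z) - (z - y) := by abel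
        rw [this]; exact M.sub_mem h' h
      have p1 : z - y ∈ B0 → z - y ∈ M := fun h => ((m0 _).1 h).2
      have p2 : y + z ∈ B0 → y + z ∈ M := fun h => ((m0 _).1 h).2
      simp only [hP, hQ]
      by_cases hy2 : y + y ∈ M <;> by_cases hz2 : z + z ∈ M
      · rw [if_pos hy2, if_pos hz2]; split_ifs <;> norm_num
      · rw [if_pos hy2, if_neg hz2]
        have q1 : z - y ∉ B0 := fun h => hz2 ((f1 (p1 h)).2 hy2)
        have q2 : y + z ∉ B0 := fun h => hz2 ((f2 (p2 h)).2 hy2)
        rw [if_neg q1, if_neg q2]; norm_num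
      · rw [if_neg hy2, if_pos hz2]
        have q1 : z - y ∉ B0 := fun h => hy2 ((f1 (p1 h)).1 hz2)
        have q2 : y + z ∉ B0 := fun h => hy2 ((f2 (p2 h)).1 hz2)
        rw [if_neg q1, if_neg q2]; norm_num
      · rw [if_neg hy2, if_neg hz2]
        by_cases q1 : z - y ∈ B0
        · have q2 : y + z ∉ B0 := fun h => hy2 (f3 (p1 q1) (p2 h))
          rw [if_pos q1, if_neg q2]; norm_num
        · rw [if_neg q1]; split_ifs <;> norm_num
    rw [e]
    refine (sum_le_sum fun y hy => sum_le_sum fun z hz => bound y hy z hz).trans ?_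
    have cT : ∀ y ∈ T, (∑ z ∈ R, (if y + y ∈ M then (if z + z ∈ M then (2 : ℤ) else 0)
        else (if z + z ∈ M then 0 else 1))) = 2 * t := by
      intro y hy
      have hy2 : y + y ∈ M := (mem_filter.1 hy).2
      simp only [hy2, if_true]
      rw [← sum_filter, sum_const, nsmul_eq_mul, ht]; ring
    have cT' : ∀ y ∈ T', (∑ z ∈ R, (if y + y ∈ M then (if z + z ∈ M then (2 : ℤ) else 0)
        else (if z + z ∈ M then 0 else 1))) = r - t := by
      intro y hy
      have hy2 : ¬ (y + y ∈ M) := (mem_filter.1 hy).2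
      simp only [hy2, if_false]
      rw [splitR]
      have z1 : ∑ x ∈ T, (if x + x ∈ M then (0 : ℤ) else 1) = 0 :=
        sum_eq_zero fun x hx => if_pos (mem_filter.1 hx).2
      have z2 : ∑ x ∈ T', (if x + x ∈ M then (0 : ℤ) else 1) = ∑ _x ∈ T', 1 :=
        sum_congr rfl fun x hx => if_neg (mem_filter.1 hx).2
      rw [z1, z2, sum_const, nsmul_eq_mul, hT'c]; ring
    rw [splitR, sum_congr rfl cT, sum_congr rfl cT', sum_const, sum_const, nsmul_eq_mul,
      nsmul_eq_mul, hT'c]
    have : (T.card : ℤ) = t := by rw [ht]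
    rw [this]
    nlinarith
  have f1 : FF B = 4 * NN B B B - 3 * (c + r) ^ 2 := by unfold FF; rw [sch_eq, hb]
  have f2 : FF B0 = 4 * NN B0 B0 B0 - 3 * c ^ 2 := by unfold FF; rw [sch_eq, hc]
  rw [f1, f2, s1]
  nlinarith [b1, b2]

end Pool.Agent.GL
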