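import Mathlib

/-!
# The numerical inequalities of the gluing lemma (real numbers)
-/

set_option autoImplicit false

namespace Pool.Agent.GL.Num

/-! ### `5 r²`, type II from below: `c = 2A + h - s` -/

theorem m1 {h s A r : ℤ} (hr : 0 ≤ r) (hA : 0 ≤ 12 * h + 12 * A - 16 * s) :
    (h - s) * (h - 5 * s) - 6 * (2 * A + h - s) * r + 5 * r ^ 2 ≤
      (h - (s - r)) * (h - 5 * (s - r)) := by
  nlinarith [mul_nonneg hr hA]

/-- `r = s + x`, alive from above -/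
theorem m2 {h s A x : ℤ} (hs0 : 0 ≤ s) (hs1 : s ≤ h) (hx0 : 0 ≤ x) (hx1 : x ≤ h)
    (hA : (A = 0 ∧ 4 * (s + x) ≤ 3 * (h - s)) ∨ h ≤ A) :
    (h - s) * (h - 5 * s) - 6 * (2 * A + h - s) * (s + x) + 5 * (s + x) ^ 2 ≤
      (h - x) * (h - 5 * x) := by
  rcases hA with ⟨rfl, h1⟩ | hA
  · nlinarith [mul_nonneg hs0 (show 0 ≤ 3 * (h - s) - 4 * (s + x) by linarith), mul_nonneg hs0 hs0,
      mul_nonneg hs0 hx0]
  · have : 0 ≤ 12 * (A + h) * s - 16 * s ^ 2 + x * (12 * A - 16 * s) := by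
      nlinarith [mul_nonneg (show 0 ≤ A - h by linarith) (show 0 ≤ 12 * s + 12 * x by linarith),
        mul_nonneg hs0 (show 0 ≤ h - s by linarith), mul_nonneg hs0 (show 0 ≤ h - x by linarith),
        mul_nonneg hx0 (show 0 ≤ h - s by linarith), mul_nonneg (show 0 ≤ h - s by linarith)
          (show 0 ≤ h - x by linarith)]
    nlinarith

/-- `r = s + x`, dead, type I in `K`, `|K| = 3A + h` -/
theorem m3 {h s A x : ℤ} (hs0 : 0 ≤ s) (hs1 : s ≤ h) (hx0 : 0 ≤ x) (hA : h ≤ A) :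
    (h - s) * (h - 5 * s) - 6 * (2 * A + h - s) * (s + x) + 5 * (s + x) ^ 2 ≤
      (h + 3 * x) ^ 2 := by
  nlinarith [mul_nonneg hs0 (show 0 ≤ h - s by linarith), mul_nonneg hx0 (show 0 ≤ h - s by linarith),
    mul_nonneg hx0 (show 0 ≤ A - h by linarith), mul_nonneg hs0 (show 0 ≤ A - h by linarith),
    mul_nonneg hx0 hx0]

/-- beyond `(2j+2)h`: far below `- 4 h²/5` -/
theorem m4 {h s A r : ℤ} (hs0 : 0 ≤ s) (hs1 : s ≤ h) (hA : h ≤ A) (hr0 : h + s ≤ r)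
    (hr1 : 4 * r ≤ 3 * (2 * A + h - s)) :
    5 * ((h - s) * (h - 5 * s) - 6 * (2 * A + h - s) * r + 5 * r ^ 2) ≤ -4 * h ^ 2 := by
  nlinarith [mul_nonneg (show 0 ≤ r - (h + s) by linarith)
      (show 0 ≤ 3 * (2 * A + h - s) - 4 * r by linarith),
    mul_nonneg (show 0 ≤ r - (h + s) by linarith) (show 0 ≤ A - h by linarith),
    mul_nonneg (show 0 ≤ A - h by linarith) hs0,
    mul_nonneg (show 0 ≤ A - h by linarith) (show 0 ≤ h by linarith),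
    mul_nonneg hs0 (show 0 ≤ h - s by linarith),
    mul_nonneg (show 0 ≤ r - (h + s) by linarith) hs0,
    mul_nonneg (show 0 ≤ r - (h + s) by linarith) (show 0 ≤ h - s by linarith),
    mul_nonneg (show 0 ≤ A - h by linarith) (show 0 ≤ h - s by linarith)]

/-- beyond `k = |K|`, `b = c + r`, `c ≤ k` -/
theorem m5 {k c r f0 : ℤ} (hk : c ≤ k) (hc : 0 ≤ c) (hr0 : 0 ≤ r) (hr1 : 4 * r ≤ 3 * c)
    (hf : 3 * f0 ≤ 2 * c ^ 2) :
    f0 - 6 * c * r + 5 * r ^ 2 ≤ (2 * k - (c + r)) * (6 * k - 5 * (c + r)) := by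
  nlinarith [mul_nonneg (show 0 ≤ k - c by linarith) (show 0 ≤ 3 * c - 4 * r by linarith),
    sq_nonneg (6 * k - 7 * c)]

/-! ### `5 r²`, type II from above: `c = 2A + h + s` -/

theorem p1 {h s A r : ℤ} (hs0 : 0 ≤ s) (hr : 0 ≤ r) (hA : 0 ≤ A) :
    (h - s) * (h - 5 * s) - 6 * (2 * A + h + s) * r + 5 * r ^ 2 ≤
      (h - (s + r)) * (h - 5 * (s + r)) := by
  nlinarith [mul_nonneg hr hs0, mul_nonneg hr hA]

/-- `r = h - s + y`, `b = 2A + 2h + y`, from below -/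
theorem p2 {h s A y : ℤ} (hs0 : 0 ≤ s) (hs1 : s ≤ h) (hy0 : 0 ≤ y) (hy1 : y ≤ h)
    (hA : (A = 0 ∧ y ≤ 2 * s) ∨ h ≤ A) :
    (h - s) * (h - 5 * s) - 6 * (2 * A + h + s) * (h - s + y) + 5 * (h - s + y) ^ 2 ≤
      (h - (h - y)) * (h - 5 * (h - y)) := by
  rcases hA with ⟨rfl, h1⟩ | hA
  · rcases le_total h (2 * s) with h2 | h2
    · nlinarith [mul_nonneg hs0 (show 0 ≤ h - s by linarith),
        mul_nonneg hy0 (show 0 ≤ 2 * s - h by linarith)]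
    · nlinarith [mul_nonneg hs0 hs0,
        mul_nonneg (show 0 ≤ h - 2 * s by linarith) (show 0 ≤ 2 * s - y by linarith)]
  · nlinarith [mul_nonneg (show 0 ≤ A - h by linarith) (show 0 ≤ h - s by linarith),
      mul_nonneg (show 0 ≤ A - h by linarith) hy0, mul_nonneg hs0 (show 0 ≤ h - s by linarith),
      mul_nonneg hy0 hs0, mul_nonneg hy0 (show 0 ≤ h by linarith),
      mul_nonneg (show 0 ≤ h by linarith) (show 0 ≤ h - s by linarith)]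

/-- `V ≤ 0` for `y ≥ 0` -/
theorem p3 {h s A y : ℤ} (hs0 : 0 ≤ s) (hs1 : s ≤ h) (hy0 : 0 ≤ y) (hA0 : 0 ≤ A)
    (hr : h - s + y ≤ 2 * A + h + s) :
    (h - s) * (h - 5 * s) - 6 * (2 * A + h + s) * (h - s + y) + 5 * (h - s + y) ^ 2 ≤ 0 := by
  nlinarith [mul_nonneg (show 0 ≤ 2 * A + 2 * s - y by linarith) hy0, mul_nonneg hy0 hs0,
    mul_nonneg hy0 hA0, mul_nonneg hs0 (show 0 ≤ h - s by linarith),
    mul_nonneg hA0 (show 0 ≤ h - s by linarith), mul_nonneg hs0 hA0,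
    mul_nonneg (show 0 ≤ 2 * A + 2 * s - y by linarith) (show 0 ≤ h - s by linarith)]

/-- `j = 0`, `y = h + x`, `b = 3 h + x`, from above -/
theorem p4 {h s x : ℤ} (hs0 : 0 ≤ s) (hs1 : s ≤ h) (hx0 : 0 ≤ x)
    (hr : 4 * (h - s + (h + x)) ≤ 3 * (h + s)) :
    (h - s) * (h - 5 * s) - 6 * (h + s) * (h - s + (h + x)) + 5 * (h - s + (h + x)) ^ 2 ≤
      (h - x) * (h - 5 * x) := by
  nlinarith [mul_nonneg hx0 (show 0 ≤ 3 * (h + s) - 4 * (h - s + (h + x)) by linarith),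
    mul_nonneg hx0 (show 0 ≤ h - s by linarith),
    mul_nonneg (show 0 ≤ 7 * s - 5 * h - 4 * x by linarith) (show 0 ≤ h - s by linarith),
    mul_nonneg hs0 hx0, sq_nonneg (h - s),
    mul_nonneg (show 0 ≤ 7 * s - 5 * h - 4 * x by linarith) (show 0 ≤ s by linarith)]

/-- `j = 0`, exponent 3, `b = 3 h + x`, `K` of order `3h` -/
theorem p5 {h s x : ℤ} (hs1 : s ≤ h) (hs0 : 0 ≤ s) (hx1 : x ≤ s) :
    (h - s) * (h - 5 * s) - 6 * (h + s) * (h - s + (h + x)) + 5 * (h - s + (h + x)) ^ 2 ≤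
      (2 * (3 * h) - (3 * h + x)) * (6 * (3 * h) - 5 * (3 * h + x)) := by
  nlinarith [mul_nonneg (show 0 ≤ s - x by linarith) (show 0 ≤ 2 * h - s by linarith)]

/-- `j ≥ 1`, `y ≥ h` -/
theorem p6 {h s A y : ℤ} (hs0 : 0 ≤ s) (hs1 : s ≤ h) (hA : h ≤ A) (hy : h ≤ y)
    (hr1 : 4 * (h - s + y) ≤ 3 * (2 * A + h + s)) :
    5 * ((h - s) * (h - 5 * s) - 6 * (2 * A + h + s) * (h - s + y) + 5 * (h - s + y) ^ 2) ≤
      -4 * h ^ 2 := by
  nlinarith [mul_nonneg (show 0 ≤ y - h by linarith)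
      (show 0 ≤ 3 * (2 * A + h + s) - 4 * (h - s + y) by linarith),
    mul_nonneg (show 0 ≤ y - h by linarith) (show 0 ≤ A - h by linarith),
    mul_nonneg (show 0 ≤ A - h by linarith) hs0,
    mul_nonneg (show 0 ≤ A - h by linarith) (show 0 ≤ h by linarith),
    mul_nonneg hs0 (show 0 ≤ h - s by linarith),
    mul_nonneg (show 0 ≤ y - h by linarith) hs0,
    mul_nonneg (show 0 ≤ y - h by linarith) (show 0 ≤ h - s by linarith),
    mul_nonneg (show 0 ≤ A - h by linarith) (show 0 ≤ h - s by linarith)]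

/-! ### type I -/

theorem i1 {k s r : ℤ} (hs1 : 2 * s ≤ k) (hr : 0 ≤ r) :
    (3 * (k - s) - 2 * k) ^ 2 - 6 * (k - s) * r + 5 * r ^ 2 ≤ (3 * (k - s + r) - 2 * k) ^ 2 := by
  nlinarith [mul_nonneg hr (show 0 ≤ k - 2 * s by linarith), mul_nonneg hr hr]

theorem i2 {k s r : ℤ} (hs0 : 0 ≤ s) (hr : 4 * r ≤ 3 * (k - s)) :
    (3 * (k - s) - 2 * k) ^ 2 - 6 * (k - s) * r + 5 * r ^ 2 ≤
      (2 * k - (k - s + r)) * (6 * k - 5 * (k - s + r)) := by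
  nlinarith [mul_nonneg hs0 (show 0 ≤ 3 * (k - s) - 4 * r by linarith), mul_nonneg hs0 hs0]

end Pool.Agent.GL.Num
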