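import Pool.Agent.Lib_helper28.GL.Level
import Pool.Agent.Lib_helper28.GL.Num

/-!
# `f_M(c) - 6 c r + 5 r² ≤ f_G(c + r)` for `4 r ≤ 3 c`
-/

set_option autoImplicit false

namespace Pool.Agent.GL

open Finset

variable {G : Type*} [AddCommGroup G]

theorem N3_I [Finite G] {K : AddSubgroup G} (hK : K ≠ ⊤) {S : Finset G} (hS : ∀ x ∈ S, x ∈ K)
    (hf : SF S) {c r : ℕ} (hc : S.card + c = Nat.card K) (hr : 4 * r ≤ 3 * c) :
    Bd G (c + r) ((3 * (c : ℤ) - 2 * (Nat.card K : ℤ)) ^ 2 - 6 * c * r + 5 * r ^ 2) := by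
  classical
  have h2 : 2 * S.card ≤ Nat.card K := SF_card hS hf
  have hcz : (c : ℤ) = (Nat.card K : ℤ) - S.card := by
    have : ((S.card + c : ℕ) : ℤ) = Nat.card K := by rw [hc]
    push_cast at this; linarith
  rcases le_total r S.card with h | h
  · obtain ⟨S', hS', hS'c⟩ := Finset.exists_subset_card_eq (s := S) (n := S.card - r) (by omega)
    refine ⟨(3 * ((c + r : ℕ) : ℤ) - 2 * (Nat.card K : ℤ)) ^ 2, Or.inl ⟨K, S', fun x hx => hS x (hS' hx),
      fun x hx y hy hxy => hf x (hS' hx) y (hS' hy) (hS' hxy), by omega, rfl⟩, ?_⟩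
    push_cast
    rw [hcz]
    exact Num.i1 (by exact_mod_cast h2) (by positivity)
  · refine ⟨_, WII_above hK (by omega) (by omega), ?_⟩
    push_cast
    rw [hcz]
    refine Num.i2 (by positivity) ?_
    rw [← hcz]; exact_mod_cast hr

theorem z1 {c h r : ℤ} (h0 : 0 ≤ c) (h1 : 4 * c ≤ h) (hr0 : 0 ≤ r) (hr : 4 * r ≤ 3 * c) :
    3 * (c * (5 * c - 4 * h) - 6 * c * r + 5 * r ^ 2) ≤ -(c + r) ^ 2 := by
  nlinarith [mul_nonneg h0 (show 0 ≤ h - 4 * c by linarith), mul_nonneg h0 hr0,
    mul_nonneg h0 h0, mul_nonneg hr0 (show 0 ≤ 3 * c - 4 * r by linarith)]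

theorem z2 {h s A : ℤ} (hs0 : 0 ≤ s) (hs1 : s ≤ h) (hA : h ≤ A) :
    3 * ((h - s) * (h - 5 * s)) ≤ 2 * (2 * A + h - s) ^ 2 := by
  nlinarith [mul_nonneg (show 0 ≤ A - h by linarith) (show 0 ≤ A + h by linarith),
    mul_nonneg (show 0 ≤ A - h by linarith) (show 0 ≤ h - s by linarith),
    mul_nonneg hs0 (show 0 ≤ h - s by linarith), mul_nonneg (show 0 ≤ h by linarith)
      (show 0 ≤ h - s by linarith)]

theorem z3 {h s A : ℤ} (hs0 : 0 ≤ s) (hs1 : s ≤ h) (hA : h ≤ A) :
    3 * ((h - s) * (h - 5 * s)) ≤ 2 * (2 * A + h + s) ^ 2 := by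
  nlinarith [mul_nonneg (show 0 ≤ A - h by linarith) (show 0 ≤ A + h by linarith),
    mul_nonneg (show 0 ≤ A - h by linarith) hs0, mul_nonneg (show 0 ≤ A - h by linarith)
      (show 0 ≤ h by linarith),
    mul_nonneg hs0 (show 0 ≤ h - s by linarith), mul_nonneg (show 0 ≤ h by linarith)
      (show 0 ≤ h - s by linarith), mul_nonneg hs0 (show 0 ≤ h by linarith)]

theorem N3_dn [Finite G] {H : AddSubgroup G} (hH : H ≠ ⊤) {j s c r : ℕ} (hs : s ≤ Nat.card H)
    (hc : c + s = (2 * j + 1) * Nat.card H) (ha : Alive H (3 * j + 1)) (hr : 4 * r ≤ 3 * c)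
    (hn : c + r ≤ Nat.card G) :
    Bd G (c + r) (((Nat.card H : ℤ) - s) * ((Nat.card H : ℤ) - 5 * s) - 6 * c * r + 5 * r ^ 2) := by
  classical
  obtain ⟨E, L⟩ := exists_Lv H
  have hE1 : 3 * j + 1 ≤ E := L.max _ ha
  have hE2 : 2 ≤ E := L.max 2 (alive_two hH)
  have hpos : 0 < Nat.card H := Nat.card_pos
  set h := Nat.card H with hh
  have hcn : c + s = 2 * (j * h) + h := by rw [hc]; ring
  have hcz : (c : ℤ) = 2 * ((j : ℤ) * h) + h - s := by
    have : ((c + s : ℕ) : ℤ) = ((2 * (j * h) + h : ℕ) : ℤ) := by rw [hcn]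
    push_cast at this; linarith
  have hs' : (s : ℤ) ≤ h := by exact_mod_cast hs
  have hs0 : (0 : ℤ) ≤ s := by positivity
  have hr0 : (0 : ℤ) ≤ r := by positivity
  have hrz : 4 * (r : ℤ) ≤ 3 * c := by exact_mod_cast hr
  have hjA : j = 0 ∨ h ≤ j * h := by
    rcases Nat.eq_zero_or_pos j with h0 | h0
    · exact Or.inl h0
    · exact Or.inr (Nat.le_mul_of_pos_left _ h0)
  rcases Nat.eq_zero_or_pos c with hc0 | hc0
  · -- `c = 0`
    subst hc0
    have hr00 : r = 0 := by omega
    subst hr00
    have : s = h := by omega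
    subst this
    simpa using (Bd_zero (G := G))
  by_cases hsmall : j = 0 ∧ 3 * h < 4 * s
  · obtain ⟨rfl, hs4⟩ := hsmall
    refine LB (by omega) hn ?_
    have e1 : (h : ℤ) - s = c := by rw [hcz]; push_cast; ring
    have e2 : (h : ℤ) - 5 * s = 5 * c - 4 * h := by rw [hcz]; push_cast; ring
    rw [e1, e2]
    push_cast
    refine z1 (by positivity) ?_ hr0 hrz
    have : 3 * (h : ℤ) < 4 * s := by exact_mod_cast hs4
    linarith
  have hA0 : 0 ≤ 12 * (h : ℤ) + 12 * ((j : ℤ) * h) - 16 * s := by
    rcases hjA with h0 | h0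
    · have : 4 * s ≤ 3 * h := by
        by_contra hlt; exact hsmall ⟨h0, by omega⟩
      have : 4 * (s : ℤ) ≤ 3 * h := by exact_mod_cast this
      subst h0; push_cast; linarith
    · have : (h : ℤ) ≤ (j : ℤ) * h := by exact_mod_cast h0
      linarith
  rcases le_total r s with hrs | hrs
  · -- fewer missing elements
    refine ⟨_, WII_below (j := j) (s := s - r) (b := c + r) (by omega) (by rw [← hh]; omega) ha, ?_⟩
    rw [← hh, hcz]
    push_cast [Nat.cast_sub hrs]
    exact Num.m1 hr0 hA0
  · obtain ⟨x, rfl⟩ := Nat.exists_eq_add_of_le hrs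
    have hx0 : (0 : ℤ) ≤ x := by positivity
    by_cases hx : x ≤ h
    · have hxz : (x : ℤ) ≤ h := by exact_mod_cast hx
      by_cases hE : 3 * j + 2 ≤ E
      · refine ⟨_, WII_up (j := j) (s := x) (b := c + (s + x)) hx (by rw [← hh]; omega)
          (L.alive.mono hE), ?_⟩
        rw [← hh, hcz]
        push_cast
        refine Num.m2 hs0 hs' hx0 hxz ?_
        rcases hjA with h0 | h0
        · left
          subst h0
          refine ⟨by push_cast; ring, ?_⟩
          push_cast at hrz hcz
          linarith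
        · right; exact_mod_cast h0
      · -- dead
        have hEj : E = 3 * j + 1 := by omega
        have hj1 : h ≤ j * h := by
          rcases hjA with h0 | h0
          · omega
          · exact h0
        subst hEj
        have hb1 : c + (s + x) ≤ (3 * j + 1) * h := by
          have : (3 * j + 1) * h = 3 * (j * h) + h := by ring
          omega
        have hb2 : (3 * j + 1) * h ≤ c + (s + x) + ((3 * j + 1) / 3) * h := by
          have h3 : (3 * j + 1) / 3 = j := by omega
          have : (3 * j + 1) * h = 3 * (j * h) + h := by ring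
          rw [h3]; omega
        refine ⟨_, L.wI hb1 hb2, ?_⟩
        rw [← hh]
        have e : (3 * ((c + (s + x) : ℕ) : ℤ) - 2 * (((3 * j + 1 : ℕ) : ℤ) * h)) = h + 3 * x := by
          push_cast; rw [hcz]; ring
        rw [e, hcz]
        push_cast
        exact Num.m3 hs0 hs' hx0 (by exact_mod_cast hj1)
    · -- `x > h`
      push Not at hx
      have hj1 : h ≤ j * h := by
        rcases hjA with h0 | h0
        · exfalso
          subst h0
          omega
        · exact h0
      have hj1z : (h : ℤ) ≤ (j : ℤ) * h := by exact_mod_cast hj1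
      by_cases hbE : c + (s + x) ≤ E * h
      · refine L.lb hbE ?_
        rw [← hh, hcz]
        push_cast
        refine Num.m4 hs0 hs' hj1z ?_ ?_
        · have : (h : ℤ) < x := by exact_mod_cast hx
          linarith
        · rw [← hcz]; push_cast at hrz; linarith
      · push Not at hbE
        have hEh : (3 * j + 1) * h ≤ E * h := Nat.mul_le_mul_right _ hE1
        have e3 : (3 * j + 1) * h = 3 * (j * h) + h := by ring
        refine ⟨_, L.above hbE (by rw [← hh]; omega) hn, ?_⟩
        rw [← hh]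
        push_cast
        have hEhz : 3 * ((j : ℤ) * h) + h ≤ (E : ℤ) * h := by
          rw [e3] at hEh; exact_mod_cast hEh
        have := Num.m5 (k := (E : ℤ) * h) (c := c) (r := ((s : ℤ) + x))
          (f0 := ((h : ℤ) - s) * ((h : ℤ) - 5 * s)) (by linarith) (by positivity) (by positivity)
          (by push_cast at hrz; linarith) (by rw [hcz]; exact z2 hs0 hs' hj1z)
        exact this

theorem N3_up [Finite G] {H : AddSubgroup G} (hH : Alive H 3) {j s c r : ℕ} (hs : s ≤ Nat.card H)
    (hc : c = (2 * j + 1) * Nat.card H + s) (ha : Alive H (3 * j + 2)) (hr : 4 * r ≤ 3 * c)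
    (hn : c + r ≤ Nat.card G) :
    Bd G (c + r) (((Nat.card H : ℤ) - s) * ((Nat.card H : ℤ) - 5 * s) - 6 * c * r + 5 * r ^ 2) := by
  classical
  obtain ⟨E, L⟩ := exists_Lv H
  have hE1 : 3 * j + 2 ≤ E := L.max _ ha
  have hE3 : 3 ≤ E := L.max 3 hH
  have hpos : 0 < Nat.card H := Nat.card_pos
  set h := Nat.card H with hh
  have hcn : c = 2 * (j * h) + h + s := by rw [hc]; ring
  have hcz : (c : ℤ) = 2 * ((j : ℤ) * h) + h + s := by
    rw [hcn]; push_cast; ring
  have hs' : (s : ℤ) ≤ h := by exact_mod_cast hs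
  have hs0 : (0 : ℤ) ≤ s := by positivity
  have hr0 : (0 : ℤ) ≤ r := by positivity
  have hA0 : (0 : ℤ) ≤ (j : ℤ) * h := by positivity
  have hrz : 4 * (r : ℤ) ≤ 3 * c := by exact_mod_cast hr
  have hjA : j = 0 ∨ h ≤ j * h := by
    rcases Nat.eq_zero_or_pos j with h0 | h0
    · exact Or.inl h0
    · exact Or.inr (Nat.le_mul_of_pos_left _ h0)
  rcases le_total r (h - s) with hrs | hrs
  · refine ⟨_, WII_up (j := j) (s := s + r) (b := c + r) (by rw [← hh]; omega)
      (by rw [← hh]; omega) ha, ?_⟩
    rw [← hh, hcz]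
    push_cast
    exact Num.p1 hs0 hr0 hA0
  · obtain ⟨y, rfl⟩ := Nat.exists_eq_add_of_le hrs
    have hy0 : (0 : ℤ) ≤ y := by positivity
    have hb : c + (h - s + y) = 2 * (j * h) + 2 * h + y := by omega
    have hrz' : 4 * ((h : ℤ) - s + y) ≤ 3 * (2 * ((j : ℤ) * h) + h + s) := by
      rw [← hcz]; push_cast [Nat.cast_sub hs] at hrz; linarith
    have hV : ((h - s + y : ℕ) : ℤ) = (h : ℤ) - s + y := by push_cast [Nat.cast_sub hs]; ring
    have hneg : ((h : ℤ) - s) * ((h : ℤ) - 5 * s) - 6 * c * ((h - s + y : ℕ) : ℤ) +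
        5 * ((h - s + y : ℕ) : ℤ) ^ 2 ≤ 0 := by
      rw [hV, hcz]
      exact Num.p3 hs0 hs' hy0 hA0 (by linarith)
    by_cases hbE : c + (h - s + y) ≤ E * h
    · by_cases hyh : y ≤ h
      · by_cases hE4 : 3 * j + 4 ≤ E
        · refine ⟨_, WII_below (j := j + 1) (s := h - y) (b := c + (h - s + y)) (by rw [← hh]; omega)
            ?_ (L.alive.mono (by omega)), ?_⟩
          · rw [← hh]
            have : (2 * (j + 1) + 1) * h = 2 * (j * h) + 3 * h := by ring
            omega
          · rw [← hh, hV, hcz]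
            push_cast [Nat.cast_sub hyh]
            refine Num.p2 hs0 hs' hy0 (by exact_mod_cast hyh) ?_
            rcases hjA with h0 | h0
            · left
              subst h0
              refine ⟨by push_cast; ring, ?_⟩
              push_cast at hrz'
              linarith
            · right; exact_mod_cast h0
        · -- dead
          refine ⟨_, L.wI hbE ?_, hneg.trans (sq_nonneg _)⟩
          rw [← hh]
          have h4 : E ≤ 2 * j + 2 + E / 3 := by omega
          have h5 : E * h ≤ (2 * j + 2 + E / 3) * h := Nat.mul_le_mul_right _ h4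
          have h6 : (2 * j + 2 + E / 3) * h = 2 * (j * h) + 2 * h + (E / 3) * h := by ring
          omega
      · push Not at hyh
        rcases hjA with h0 | h0
        · -- `j = 0`
          subst h0
          simp only [Nat.zero_mul, Nat.mul_zero, Nat.zero_add] at hb hcn hc
          push_cast at hcz hrz'
          by_cases hE5 : 5 ≤ E
          · refine ⟨_, WII_up (j := 1) (s := y - h) (b := c + (h - s + y)) (by rw [← hh]; omega)
              (by rw [← hh]; omega) (L.alive.mono (by omega)), ?_⟩
            rw [← hh, hV, hcz]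
            have e : ((y - h : ℕ) : ℤ) = (y : ℤ) - h := by push_cast [Nat.cast_sub hyh.le]; ring
            rw [e]
            have := Num.p4 (h := (h : ℤ)) (s := s) (x := (y : ℤ) - h) hs0 hs'
              (by have : (h : ℤ) < y := by exact_mod_cast hyh
                  linarith) (by linarith)
            have e2 : (h : ℤ) - s + (h + ((y : ℤ) - h)) = h - s + y := by ring
            rw [e2] at this
            simpa using this
          · have hE4 : E = 4 := by
              have : 3 * h < E * h := by omega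
              have := Nat.lt_of_mul_lt_mul_right this
              omega
            subst hE4
            refine ⟨_, L.wI hbE (by rw [← hh]; omega), hneg.trans (sq_nonneg _)⟩
        · refine L.lb hbE ?_
          rw [← hh, hV, hcz]
          exact Num.p6 hs0 hs' (by exact_mod_cast h0) (by exact_mod_cast hyh.le) hrz'
    · push Not at hbE
      rcases hjA with h0 | h0
      · subst h0
        simp only [Nat.zero_mul, Nat.mul_zero, Nat.zero_add] at hb hcn hc
        push_cast at hcz hrz'
        have hE3' : E = 3 := by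
          by_contra hne
          have h4 : 4 ≤ E := by omega
          have : 4 * h ≤ E * h := Nat.mul_le_mul_right _ h4
          omega
        subst hE3'
        refine ⟨_, L.above hbE (by rw [← hh]; omega) hn, ?_⟩
        rw [← hh, hV, hcz]
        have e : ((c + (h - s + y) : ℕ) : ℤ) = 2 * h + y := by rw [hb]; push_cast; ring
        rw [e]
        have := Num.p5 (h := (h : ℤ)) (s := s) (x := (y : ℤ) - h) hs' hs0 (by linarith)
        have e2 : (h : ℤ) - s + (h + ((y : ℤ) - h)) = h - s + y := by ring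
        rw [e2] at this
        push_cast
        nlinarith [this]
      · have hEh : (3 * j + 2) * h ≤ E * h := Nat.mul_le_mul_right _ hE1
        have e3 : (3 * j + 2) * h = 3 * (j * h) + 2 * h := by ring
        refine ⟨_, L.above hbE (by rw [← hh]; omega) hn, ?_⟩
        rw [← hh]
        have hEhz : 3 * ((j : ℤ) * h) + 2 * h ≤ (E : ℤ) * h := by
          rw [e3] at hEh; exact_mod_cast hEh
        have hj1z : (h : ℤ) ≤ (j : ℤ) * h := by exact_mod_cast h0
        have := Num.m5 (k := (E : ℤ) * h) (c := c) (r := ((h - s + y : ℕ) : ℤ))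
          (f0 := ((h : ℤ) - s) * ((h : ℤ) - 5 * s)) (by linarith) (by positivity) (by positivity)
          hrz (by rw [hcz]; exact z3 hs0 hs' hj1z)
        push_cast at this ⊢
        exact this

end Pool.Agent.GL
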