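import Pool.Agent.Lib_helper28.GL.N2
import Pool.Agent.Lib_helper28.GL.N3
import Pool.Agent.Lib_helper28.GL.Comb

/-!
# The gluing theorem
-/

set_option autoImplicit false

namespace Pool.Agent.GL

open Finset

variable {G : Type*} [AddCommGroup G]

theorem FF_map {G' : Type*} [AddCommGroup G'] [DecidableEq G] [DecidableEq G'] (f : G' →+ G)
    (hf : Function.Injective f) (B : Finset G') : FF (B.map ⟨f, hf⟩) = FF B := by
  unfold FF
  rw [card_map, sch_eq, sch_eq]
  congr 2
  unfold NN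
  rw [sum_map]
  refine sum_congr rfl fun x _ => ?_
  rw [sum_map]
  refine sum_congr rfl fun y _ => ?_
  have : f x + f y ∈ B.map ⟨f, hf⟩ ↔ x + y ∈ B := by
    rw [← map_add, mem_map]
    constructor
    · rintro ⟨z, hz, hzz⟩
      have := hf hzz
      rw [← this]; exact hz
    · intro h; exact ⟨_, h, rfl⟩
  simp only [Function.Embedding.coeFn_mk, this]

theorem FF_subtype [DecidableEq G] (M : AddSubgroup G) [DecidablePred (· ∈ M)] (B : Finset G) :
    FF (B.filter (· ∈ M)) = FF (B.subtype (· ∈ M) : Finset M) := by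
  have h := FF_map M.subtype M.subtype_injective (B.subtype (· ∈ M) : Finset M)
  rw [← h]
  congr 1
  exact (Finset.subtype_map (p := (· ∈ M)) (s := B)).symm

theorem card_sub (M : AddSubgroup G) (K : AddSubgroup M) :
    Nat.card (K.map M.subtype) = Nat.card K :=
  Nat.card_congr (K.equivMapOfInjective M.subtype M.subtype_injective).toEquiv.symm

theorem alive_sub (M : AddSubgroup G) (H : AddSubgroup M) {t : ℕ} (h : Alive H t) :
    Alive (H.map M.subtype) t := by
  obtain ⟨g, hg⟩ := h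
  refine ⟨(g : G), fun i h0 h1 h2 => hg i h0 h1 ?_⟩
  obtain ⟨x, hx, hxx⟩ := AddSubgroup.mem_map.1 h2
  have : x = i • g := by
    apply Subtype.ext
    rw [← AddSubgroup.coe_subtype, hxx]
    simp
  rw [← this]; exact hx

theorem W_sub (M : AddSubgroup G) {c : ℕ} {v : ℤ} (h : W M c v) :
    (∃ (K : AddSubgroup G) (S : Finset G), K ≤ M ∧ (∀ x ∈ S, x ∈ K) ∧ SF S ∧
      S.card + c = Nat.card K ∧ v = (3 * (c : ℤ) - 2 * (Nat.card K : ℤ)) ^ 2) ∨
    (∃ (H : AddSubgroup G) (j s : ℕ), H ≤ M ∧ s ≤ Nat.card H ∧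
      v = ((Nat.card H : ℤ) - s) * ((Nat.card H : ℤ) - 5 * s) ∧
      ((c + s = (2 * j + 1) * Nat.card H ∧ Alive H (3 * j + 1)) ∨
        (c = (2 * j + 1) * Nat.card H + s ∧ Alive H (3 * j + 2)))) := by
  have hle : ∀ K : AddSubgroup M, K.map M.subtype ≤ M := by
    intro K x hx
    obtain ⟨y, _, rfl⟩ := AddSubgroup.mem_map.1 hx
    exact y.2
  rcases h with ⟨K, S, hS, hf, hc, hv⟩ | ⟨H, j, s, hs, hv, h⟩
  · left
    refine ⟨K.map M.subtype, S.map ⟨M.subtype, M.subtype_injective⟩, hle K, ?_, ?_, ?_, ?_⟩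
    · intro x hx
      obtain ⟨y, hy, rfl⟩ := Finset.mem_map.1 hx
      exact AddSubgroup.mem_map.2 ⟨y, hS y hy, rfl⟩
    · intro x hx y hy hxy
      obtain ⟨x', hx', rfl⟩ := Finset.mem_map.1 hx
      obtain ⟨y', hy', rfl⟩ := Finset.mem_map.1 hy
      obtain ⟨z', hz', hz⟩ := Finset.mem_map.1 hxy
      refine hf x' hx' y' hy' ?_
      have : z' = x' + y' := by
        apply M.subtype_injective
        rw [map_add]
        exact hz
      rw [← this]; exact hz'
    · rw [card_map, card_sub]; exact hc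
    · rw [card_sub]; exact hv
  · right
    refine ⟨H.map M.subtype, j, s, hle H, ?_, ?_, ?_⟩
    · rw [card_sub]; exact hs
    · rw [card_sub]; exact hv
    · rw [card_sub]
      rcases h with ⟨h1, h2⟩ | ⟨h1, h2⟩
      · exact Or.inl ⟨h1, alive_sub M H h2⟩
      · exact Or.inr ⟨h1, alive_sub M H h2⟩

theorem alive_ne_top {M : AddSubgroup G} (h : Alive M 2) : M ≠ ⊤ := by
  rintro rfl
  obtain ⟨g, hg⟩ := h
  exact hg 1 (by omega) (by omega) (by simp)

/-- **Gluing, `G / M` of exponent at least three.** -/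
theorem glue3 [Finite G] [DecidableEq G] {M : AddSubgroup G} [DecidablePred (· ∈ M)]
    (hM : Alive M 3) (B : Finset G) (IH : ∀ B' : Finset M, Bd M B'.card (FF B'))
    (h1 : 4 * (B.filter (· ∉ M)).card ≤ 3 * (B.filter (· ∈ M)).card)
    (h2 : 3 * ((B.filter (· ∉ M)).filter (fun x => x + x ∈ M)).card
      ≤ 2 * (B.filter (· ∉ M)).card) : Bd G B.card (FF B) := by
  classical
  have := Fintype.ofFinite G
  have hcomb := glue_comb M B _ _ _ rfl rfl rfl
  have hcard : (B.filter (· ∈ M)).card + (B.filter (· ∉ M)).card = B.card :=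
    Finset.card_filter_add_card_filter_not (s := B) (· ∈ M)
  have hle : B.card ≤ Nat.card G := by rw [Nat.card_eq_fintype_card]; exact card_le_univ _
  have hF := FF_subtype M B
  have hsc : (B.subtype (· ∈ M) : Finset M).card = (B.filter (· ∈ M)).card := by
    rw [card_subtype]
  obtain ⟨v, hv, hFv⟩ := IH (B.subtype (· ∈ M))
  rw [← hF] at hFv
  rw [hsc] at hv
  set c := (B.filter (· ∈ M)).card with hc
  set r := (B.filter (· ∉ M)).card with hr
  set t := ((B.filter (· ∉ M)).filter (fun x => x + x ∈ M)).card with ht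
  have hneg : 4 * (t : ℤ) * (3 * t - 2 * r) ≤ 0 := by
    have h3 : 3 * (t : ℤ) ≤ 2 * r := by exact_mod_cast h2
    have h4 : (0 : ℤ) ≤ t := by positivity
    nlinarith [mul_nonneg h4 (show 0 ≤ 2 * (r : ℤ) - 3 * t by linarith)]
  have hne : M ≠ ⊤ := alive_ne_top (hM.mono (by omega))
  rw [← hcard]
  have key : Bd G (c + r) (v - 6 * c * r + 5 * r ^ 2) := by
    rcases W_sub M hv with ⟨K, S, hK, hS, hf, hcc, rfl⟩ | ⟨H, j, s, hH, hs, rfl, h | h⟩
    · exact N3_I (fun h => hne (top_le_iff.1 (h ▸ hK))) hS hf hcc h1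
    · exact N3_dn (fun hh => hne (top_le_iff.1 (hh ▸ hH))) hs h.1 h.2 h1 (by omega)
    · exact N3_up (hM.le hH) hs h.1 h.2 h1 (by omega)
  exact key.mono (by linarith)

/-- **Gluing, `M` of index two.** -/
theorem glue2 [Finite G] [DecidableEq G] {M : AddSubgroup G} [DecidablePred (· ∈ M)]
    (hM : Nat.card G = 2 * Nat.card M) (B : Finset G) (IH : ∀ B' : Finset M, Bd M B'.card (FF B'))
    (h1 : 2 * (B.filter (· ∉ M)).card ≤ (B.filter (· ∈ M)).card) : Bd G B.card (FF B) := by
  classical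
  have := Fintype.ofFinite G
  have hcomb := glue_comb M B _ _ _ rfl rfl rfl
  have hcard : (B.filter (· ∈ M)).card + (B.filter (· ∉ M)).card = B.card :=
    Finset.card_filter_add_card_filter_not (s := B) (· ∈ M)
  have hle : B.card ≤ Nat.card G := by rw [Nat.card_eq_fintype_card]; exact card_le_univ _
  have hF := FF_subtype M B
  have hsc : (B.subtype (· ∈ M) : Finset M).card = (B.filter (· ∈ M)).card := by
    rw [card_subtype]
  have htr : ((B.filter (· ∉ M)).filter (fun x => x + x ∈ M)).card ≤ (B.filter (· ∉ M)).card :=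
    card_filter_le _ _
  obtain ⟨v, hv, hFv⟩ := IH (B.subtype (· ∈ M))
  rw [← hF] at hFv
  rw [hsc] at hv
  set c := (B.filter (· ∈ M)).card with hc
  set r := (B.filter (· ∉ M)).card with hr
  set t := ((B.filter (· ∉ M)).filter (fun x => x + x ∈ M)).card with ht
  have hneg : 4 * (t : ℤ) * (3 * t - 2 * r) ≤ 4 * r ^ 2 := by
    have h3 : (t : ℤ) ≤ r := by exact_mod_cast htr
    have h4 : (0 : ℤ) ≤ t := by positivity
    nlinarith [mul_nonneg h4 (show 0 ≤ (r : ℤ) - t by linarith),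
      mul_nonneg (show 0 ≤ (r : ℤ) - t by linarith) (show 0 ≤ (r : ℤ) by linarith)]
  have hpos : 0 < Nat.card M := Nat.card_pos
  have hne : M ≠ ⊤ := by
    rintro rfl
    rw [AddSubgroup.card_top] at hM
    have : 0 < Nat.card G := Nat.card_pos
    omega
  have hdiv : ∀ K : AddSubgroup G, K ≤ M → 2 * Nat.card K ∣ Nat.card G := by
    intro K hK
    rw [hM]
    exact Nat.mul_dvd_mul_left 2 (AddSubgroup.card_dvd_of_le hK)
  rw [← hcard]
  have key : Bd G (c + r) (v - 6 * c * r + 9 * r ^ 2) := by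
    rcases W_sub M hv with ⟨K, S, hK, hS, hf, hcc, rfl⟩ | ⟨H, j, s, hH, hs, rfl, h | h⟩
    · exact N2_I (hdiv K hK) hS hf hcc h1
    · exact N2_dn (fun hh => hne (top_le_iff.1 (hh ▸ hH))) (hdiv H hH) hs h.1 h.2 h1 (by omega)
    · exact N2_up (hdiv H hH) hs h.1 h.2 h1 (by omega)
  exact key.mono (by linarith)

theorem alive_ker {m : ℕ} (φ : G →+ ZMod m) (hφ : Function.Surjective φ) : Alive φ.ker m := by
  obtain ⟨g, hg⟩ := hφ 1
  refine ⟨g, fun i h0 h1 h2 => ?_⟩
  rw [AddMonoidHom.mem_ker, map_nsmul, hg, nsmul_eq_mul, mul_one, ZMod.natCast_eq_zero_iff] at h2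
  exact absurd (Nat.le_of_dvd h0 h2) (by omega)

theorem card_ker {m : ℕ} [NeZero m] (φ : G →+ ZMod m) (hφ : Function.Surjective φ) :
    Nat.card G = m * Nat.card φ.ker := by
  rw [AddSubgroup.card_eq_card_quotient_mul_card_addSubgroup φ.ker,
    Nat.card_congr (QuotientAddGroup.quotientKerEquivOfSurjective φ hφ).toEquiv, Nat.card_zmod]

/-- **Gluing theorem** (surjections onto cyclic groups). -/
theorem gluing_zmod [Finite G] [DecidableEq G]
    (IH : ∀ M : AddSubgroup G, M ≠ ⊤ → ∀ B' : Finset M, Bd M B'.card (FF B')) (B : Finset G) :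
    ∀ m : ℕ, 2 ≤ m → ∀ φ : G →+ ZMod m, Function.Surjective φ →
      4 * B.card ≤ 7 * (B.filter (fun x => φ x = 0)).card →
      (m = 2 → 2 * B.card ≤ 3 * (B.filter (fun x => φ x = 0)).card) → Bd G B.card (FF B) := by
  classical
  intro m
  induction m using Nat.strong_induction_on with
  | _ m ih =>
  intro hm φ hφ h1 h2
  have : NeZero m := ⟨by omega⟩
  have hal := alive_ker φ hφ
  have hne : φ.ker ≠ ⊤ := alive_ne_top (hal.mono hm)
  have hf1 : B.filter (fun x => φ x = 0) = B.filter (· ∈ φ.ker) := by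
    ext x; simp [AddMonoidHom.mem_ker]
  have hcard : (B.filter (· ∈ φ.ker)).card + (B.filter (· ∉ φ.ker)).card = B.card :=
    Finset.card_filter_add_card_filter_not (s := B) (· ∈ φ.ker)
  rw [hf1] at h1 h2
  rcases Nat.eq_or_lt_of_le hm with h | h
  · -- index two
    subst h
    exact glue2 (card_ker φ hφ) B (IH _ hne) (by have := h2 rfl; omega)
  by_cases ht : 3 * ((B.filter (· ∉ φ.ker)).filter (fun x => x + x ∈ φ.ker)).card
      ≤ 2 * (B.filter (· ∉ φ.ker)).card
  · exact glue3 (hal.mono (by omega)) B (IH _ hne) (by omega) ht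
  push Not at ht
  -- `m` is even
  obtain ⟨x0, hx0⟩ : ((B.filter (· ∉ φ.ker)).filter (fun x => x + x ∈ φ.ker)).Nonempty := by
    rw [← Finset.card_pos]; omega
  have hx0a : φ x0 ≠ 0 := by
    have := (mem_filter.1 (mem_filter.1 hx0).1).2
    rwa [AddMonoidHom.mem_ker] at this
  have hx0b : φ x0 + φ x0 = 0 := by
    have := (mem_filter.1 hx0).2
    rwa [AddMonoidHom.mem_ker, map_add] at this
  have key : ∀ a : ZMod m, a + a = 0 ↔ m ∣ 2 * a.val := by
    intro a
    conv_lhs => rw [← ZMod.natCast_zmod_val a]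
    rw [← Nat.cast_add, ZMod.natCast_eq_zero_iff, two_mul]
  have hmeven : 2 ∣ m := by
    have h3 := (key _).1 hx0b
    by_contra hodd
    have hcop : Nat.Coprime m 2 := by
      rw [Nat.coprime_comm, Nat.Prime.coprime_iff_not_dvd Nat.prime_two]; exact hodd
    have h4 : m ∣ (φ x0).val := hcop.dvd_of_dvd_mul_left h3
    have h5 : (φ x0).val < m := ZMod.val_lt _
    have h6 : (φ x0).val = 0 := Nat.eq_zero_of_dvd_of_lt h4 h5
    exact hx0a ((ZMod.val_eq_zero _).1 h6)
  obtain ⟨m', rfl⟩ := hmeven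
  have hdvd : m' ∣ 2 * m' := Dvd.intro_left 2 rfl
  let ψ : G →+ ZMod m' := (ZMod.castHom hdvd (ZMod m')).toAddMonoidHom.comp φ
  have hψ : Function.Surjective ψ := (ZMod.castHom_surjective hdvd).comp hφ
  have hψ0 : ∀ x, ψ x = 0 ↔ φ x + φ x = 0 := by
    intro x
    rw [key]
    have e1 : ψ x = ((φ x).val : ZMod m') := by
      change (ZMod.castHom hdvd (ZMod m')) (φ x) = _
      rw [ZMod.castHom_apply, ZMod.natCast_val]
    rw [e1, ZMod.natCast_eq_zero_iff]
    constructor
    · intro h3; exact Nat.mul_dvd_mul_left 2 h3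
    · intro h3; exact Nat.dvd_of_mul_dvd_mul_left (by norm_num) h3
  have hcount : (B.filter (fun x => ψ x = 0)).card = (B.filter (· ∈ φ.ker)).card +
      ((B.filter (· ∉ φ.ker)).filter (fun x => x + x ∈ φ.ker)).card := by
    rw [← card_union_of_disjoint]
    · congr 1
      ext x
      simp only [mem_filter, mem_union, hψ0, AddMonoidHom.mem_ker, map_add]
      by_cases hx : φ x = 0 <;> simp [hx]
    · rw [disjoint_left]
      intro x hx hx'
      exact (mem_filter.1 (mem_filter.1 hx').1).2 (mem_filter.1 hx).2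
  have htr : ((B.filter (· ∉ φ.ker)).filter (fun x => x + x ∈ φ.ker)).card
      ≤ (B.filter (· ∉ φ.ker)).card := card_filter_le _ _
  refine ih m' (by omega) (by omega) ψ hψ ?_ fun _ => ?_
  · rw [hcount]; omega
  · rw [hcount]; omega

/-- **Gluing theorem**: `G / L` cyclic of order at least two. -/
theorem gluing [Finite G] [DecidableEq G]
    (IH : ∀ M : AddSubgroup G, M ≠ ⊤ → ∀ B' : Finset M, Bd M B'.card (FF B')) (B : Finset G)
    (L : AddSubgroup G) [DecidablePred (· ∈ L)] (hL : L ≠ ⊤) (hc : IsAddCyclic (G ⧸ L))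
    (h1 : 4 * B.card ≤ 7 * (B.filter (· ∈ L)).card)
    (h2 : Nat.card G = 2 * Nat.card L → 2 * B.card ≤ 3 * (B.filter (· ∈ L)).card) :
    Bd G B.card (FF B) := by
  classical
  let φ : G →+ ZMod (Nat.card (G ⧸ L)) :=
    (zmodAddCyclicAddEquiv hc).symm.toAddMonoidHom.comp (QuotientAddGroup.mk' L)
  have hφ : Function.Surjective φ :=
    (zmodAddCyclicAddEquiv hc).symm.surjective.comp (QuotientAddGroup.mk'_surjective L)
  have h0 : ∀ x, φ x = 0 ↔ x ∈ L := by
    intro x
    change (zmodAddCyclicAddEquiv hc).symm (QuotientAddGroup.mk' L x) = 0 ↔ _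
    rw [EmbeddingLike.map_eq_zero_iff]
    exact QuotientAddGroup.eq_zero_iff x
  have hf : B.filter (fun x => φ x = 0) = B.filter (· ∈ L) := by
    ext x; simp [h0]
  have hcard := AddSubgroup.card_eq_card_quotient_mul_card_addSubgroup L
  have hm : 2 ≤ Nat.card (G ⧸ L) := by
    have hpos : 0 < Nat.card (G ⧸ L) := Nat.card_pos
    by_contra hlt
    have h3 : Nat.card (G ⧸ L) = 1 := by omega
    rw [h3, one_mul] at hcard
    exact hL (AddSubgroup.eq_top_of_card_eq L hcard.symm)
  refine gluing_zmod IH B _ hm φ hφ ?_ fun h => ?_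
  · rw [hf]; exact h1
  · rw [hf]; exact h2 (by rw [hcard, h])

end Pool.Agent.GL
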