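import Pool.Agent.Lib_helper51.GL.Defs
import Pool.Agent.Lib_helper4.GL.H12
import Pool.Agent.Lib_helper7.GNF.P.RS
import Pool.Agent.Lib_helper7.GNF.P.GF

/-! Block B1 of project GL. -/

set_option autoImplicit false

namespace Pool.Agent.GL

open Finset Pool.Agent.PQ Pool.Agent.TM32

private theorem b1_pair (n : ℕ) (hs : Squarefree n) (hn : 1 < n) (M : Finset ℕ)
    (hM : ∀ d ∈ M, d ∣ n ∧ n / d ∈ M) (F : ℕ → ℤ) (hF : ∀ d ∈ M, F (n / d) = F d) :
    (2 : ℤ) ∣ ∑ d ∈ M, F d := by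
  have h0 : ((∑ d ∈ M, F d : ℤ) : ZMod 2) = 0 := by
    push_cast
    refine Finset.sum_involution (fun d _ => n / d) ?_ ?_ ?_ ?_
    · intro d hd
      rw [hF d hd]
      exact CharTwo.add_self_eq_zero _
    · intro d hd _ h
      have h1 : d * d = n := by
        have h2 := Nat.div_mul_cancel (hM d hd).1
        rw [h] at h2
        exact h2
      have h3 : IsUnit d := hs d ⟨1, by rw [h1, mul_one]⟩
      rw [Nat.isUnit_iff] at h3
      rw [h3] at h1
      omega
    · intro d hd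
      exact (hM d hd).2
    · intro d hd
      exact Nat.div_div_self (hM d hd).1 (by omega)
  exact (ZMod.intCast_zmod_eq_zero_iff_dvd _ 2).1 h0

private theorem b1_card (n d : ℕ) (hs : Squarefree n) (hd : d ∣ n) :
    n.primeFactors.card = d.primeFactors.card + (n / d).primeFactors.card := by
  obtain ⟨m, rfl⟩ := hd
  have hd0 : 0 < d := Nat.pos_of_ne_zero (by rintro rfl; simp at hs)
  rw [Nat.mul_div_cancel_left m hd0]
  have hc : Nat.Coprime d m := Nat.coprime_of_squarefree_mul hs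
  rw [hc.primeFactors_mul, Finset.card_union_of_disjoint hc.disjoint_primeFactors]

/-- the induction -/
private theorem b1_core (tc ce : ℕ → ℤ) (Q : ℕ → Prop)
    (hQ : ∀ n, Q n → Squarefree n ∧ 1 < n ∧ n % 8 = 1 ∧ ∀ d, d ∣ n → d % 8 = 1 → 1 < d → Q d)
    (t1 : tc 1 = 2) (e1 : ce 1 = 2)
    (DV : ∀ n, Q n → (2 : ℤ) ^ (n.primeFactors.card + 1) ∣ tc n)
    (DVe : ∀ n, Q n → (2 : ℤ) ^ (n.primeFactors.card + 1) ∣ ce n)
    (RS : ∀ n, Q n → ∃ u v : ℤ, (∑ d ∈ n.divisors.filter (fun d => d % 8 = 1), tc d * tc (n / d)) ≡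
      8 * (2 ^ (n.primeFactors.card + 1) * u) + 16 * (2 ^ n.primeFactors.card * v) +
      2 * ∑ d ∈ n.divisors.filter (fun d => d % 8 = 1), (tc d + ce d) * (tc (n / d) + ce (n / d))
      [ZMOD 2 ^ (n.primeFactors.card + 5)]) (n : ℕ) (hn : Q n) :
    (2 : ℤ) ^ (n.primeFactors.card + 2) ∣ tc n := by
  induction n using Nat.strong_induction_on with
  | _ n ih =>
    obtain ⟨hs, hn1, h8, hdv⟩ := hQ n hn
    set W := n.primeFactors.card with hW
    set M := n.divisors.filter (fun d => d % 8 = 1 ∧ 1 < d ∧ d < n) with hMd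
    have hsplit : ∀ f : ℕ → ℤ, ∑ d ∈ n.divisors.filter (fun d => d % 8 = 1), f d =
        f 1 + f n + ∑ d ∈ M, f d := by
      intro f
      have hM : n.divisors.filter (fun d => d % 8 = 1) = insert 1 (insert n M) := by
        ext d
        simp only [hMd, mem_filter, mem_insert, Nat.mem_divisors]
        constructor
        · rintro ⟨⟨h1, h2⟩, h8⟩
          have hd0 : 0 < d := Nat.pos_of_dvd_of_pos h1 (by omega)
          have hdn : d ≤ n := Nat.le_of_dvd (by omega) h1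
          rcases Nat.lt_or_ge 1 d with h | h
          · rcases eq_or_ne d n with h4 | h4
            · exact Or.inr (Or.inl h4)
            · exact Or.inr (Or.inr ⟨⟨h1, h2⟩, h8, h, by omega⟩)
          · exact Or.inl (by omega)
        · rintro (rfl | rfl | ⟨h, h8, _, _⟩)
          · exact ⟨⟨one_dvd _, by omega⟩, by norm_num⟩
          · exact ⟨⟨dvd_rfl, by omega⟩, h8⟩
          · exact ⟨h, h8⟩
      rw [hM, Finset.sum_insert, Finset.sum_insert, add_assoc]
      · simp [hMd]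
      · simp only [mem_insert, hMd, mem_filter, not_or]
        exact ⟨by omega, fun h => by omega⟩
    -- the middle divisors
    have hmid : ∀ d ∈ M, d ∣ n ∧ n / d ∈ M ∧ Q d ∧ Q (n / d) ∧ d < n ∧ n / d < n ∧ n / (n / d) = d := by
      intro d hd
      simp only [hMd, mem_filter, Nat.mem_divisors] at hd
      obtain ⟨⟨hd1, _⟩, hd8, hd2, hd3⟩ := hd
      have hm : n / d ∣ n := Nat.div_dvd_of_dvd hd1
      have hmul : d * (n / d) = n := Nat.mul_div_cancel' hd1
      have hm8 : n / d % 8 = 1 := by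
        have h5 : (d * (n / d)) % 8 = 1 := by rw [hmul]; exact h8
        rw [Nat.mul_mod, hd8, one_mul, Nat.mod_mod] at h5
        exact h5
      have hm0 : n / d ≠ 0 := by
        intro h0
        rw [h0, mul_zero] at hmul
        omega
      have hm1 : n / d ≠ 1 := by
        intro h0
        rw [h0, mul_one] at hmul
        omega
      have hmn : n / d < n := Nat.div_lt_self (by omega) hd2
      have hm2 : 1 < n / d := Nat.lt_of_le_of_ne (Nat.one_le_iff_ne_zero.2 hm0) (Ne.symm hm1)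
      refine ⟨hd1, ?_, hdv d hd1 hd8 hd2, hdv _ hm hm8 hm2, hd3, hmn,
        Nat.div_div_self hd1 (by omega)⟩
      simp only [hMd, mem_filter, Nat.mem_divisors]
      exact ⟨⟨hm, by omega⟩, hm8, hm2, hmn⟩
    have hA : (2 : ℤ) ^ (W + 4) ∣ ∑ d ∈ M, tc d * tc (n / d) := by
      apply Finset.dvd_sum
      intro d hd
      obtain ⟨a1, _, a2, a3, a4, a5, _⟩ := hmid d hd
      have h6 : (2 : ℤ) ^ (W + 4) = 2 ^ (d.primeFactors.card + 2) * 2 ^ ((n / d).primeFactors.card + 2) := by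
        rw [hW, b1_card n d hs a1, ← pow_add]
        congr 1
        omega
      rw [h6]
      exact mul_dvd_mul (ih d a4 a2) (ih (n / d) a5 a3)
    have hB : (2 : ℤ) ^ (W + 3) ∣ ∑ d ∈ M, (tc d + ce d) * (tc (n / d) + ce (n / d)) := by
      have hx : ∀ d, ∃ x : ℤ, d ∈ M → (tc d + ce d) * (tc (n / d) + ce (n / d)) = 2 ^ (W + 2) * x := by
        intro d
        by_cases hd : d ∈ M
        · obtain ⟨a1, _, a2, a3, a4, a5, _⟩ := hmid d hd
          have h6 : (2 : ℤ) ^ (W + 2) = 2 ^ (d.primeFactors.card + 1) * 2 ^ ((n / d).primeFactors.card + 1) := by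
            rw [hW, b1_card n d hs a1, ← pow_add]
            congr 1
            omega
          obtain ⟨x, hx⟩ := mul_dvd_mul (dvd_add (DV d a2) (DVe d a2)) (dvd_add (DV (n / d) a3) (DVe (n / d) a3))
          exact ⟨x, fun _ => by rw [h6]; exact hx⟩
        · exact ⟨0, fun h => absurd h hd⟩
      choose x hx using hx
      rw [Finset.sum_congr rfl hx, ← Finset.mul_sum]
      have h7 : (2 : ℤ) ∣ ∑ d ∈ M, x d := by
        refine b1_pair n hs hn1 M (fun d hd => ⟨(hmid d hd).1, (hmid d hd).2.1⟩) x ?_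
        intro d hd
        obtain ⟨a1, b1, a2, a3, a4, a5, a6⟩ := hmid d hd
        have h8 := hx d hd
        have h9 := hx (n / d) b1
        rw [a6, mul_comm, h8] at h9
        exact (mul_left_cancel₀ (pow_ne_zero _ (by norm_num)) h9).symm
      rw [pow_succ (2 : ℤ) (W + 2)]
      exact mul_dvd_mul_left _ h7
    obtain ⟨u, v, hR⟩ := RS n hn
    rw [hsplit, hsplit] at hR
    have hnn : n / n = 1 := Nat.div_self (by omega)
    rw [Nat.div_one, hnn, t1, e1] at hR
    obtain ⟨y, hy⟩ := hR.symm.dvd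
    obtain ⟨a, ha⟩ := hA
    obtain ⟨b, hb⟩ := hB
    obtain ⟨r, hr⟩ := DV n hn
    obtain ⟨s, hs'⟩ := DVe n hn
    rw [← hW] at hr hs' hy
    rw [ha, hb] at hy
    have h10 : 4 * tc n = 2 ^ (W + 4) * (2 * y + u + v + (r + s) * 2 + b - a) := by
      have h11 : 4 * tc n = 2 ^ (W + 5) * y + 8 * (2 ^ (W + 1) * u) + 16 * (2 ^ W * v) +
          16 * (tc n + ce n) + 2 * (2 ^ (W + 3) * b) - 2 ^ (W + 4) * a := by
        linear_combination hy
      rw [h11, hr, hs']
      ring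
    refine ⟨2 * y + u + v + (r + s) * 2 + b - a, ?_⟩
    have h12 : (4 : ℤ) * tc n = 4 * (2 ^ (W + 2) * (2 * y + u + v + (r + s) * 2 + b - a)) := by
      rw [h10]
      ring
    linarith

private theorem b1_one (n : ℕ) (hn : One n) :
    ∃ u v : ℤ, (∑ d ∈ n.divisors.filter (fun d => d % 8 = 1), GNF.tc d * GNF.tc (n / d)) ≡
      8 * (2 ^ (n.primeFactors.card + 1) * u) + 16 * (2 ^ n.primeFactors.card * v) +
      2 * ∑ d ∈ n.divisors.filter (fun d => d % 8 = 1),
        (GNF.tc d + GNF.ce d) * (GNF.tc (n / d) + GNF.ce (n / d))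
      [ZMOD 2 ^ (n.primeFactors.card + 5)] := by
  obtain ⟨hs, hn1, h8, hp⟩ := hn
  have : NeZero n := ⟨by omega⟩
  have : NeZero (2 * n) := ⟨by omega⟩
  have hnu : ∀ d, d ∣ n → GNF.nu d = 0 := by
    intro d hd
    have h0 : d.primeFactors.filter (fun p => p % 4 = 3) = ∅ := by
      apply Finset.filter_eq_empty_iff.2
      intro p hp' h3
      have h4 := hp p (Nat.prime_of_mem_primeFactors hp') ((Nat.dvd_of_mem_primeFactors hp').trans hd)
      omega
    show (d.primeFactors.filter (fun p => p % 4 = 3)).card = 0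
    rw [h0, Finset.card_empty]
  obtain ⟨v, _, hv1, hv⟩ := GNF.FINg n hn1 hs (Or.inl h8) (fun _ => 1) (fun _ => Or.inl rfl)
    (fun _ => by rw [hnu n dvd_rfl]; simp)
  have hR := GNF.RS n hn1 hs h8 v (hv1 h8)
  have e1 : ∑ d ∈ n.divisors.filter (fun d => d % 8 = 1), GNF.kap d v * GNF.tc d * GNF.tc (n / d) =
      ∑ d ∈ n.divisors.filter (fun d => d % 8 = 1), GNF.tc d * GNF.tc (n / d) := by
    refine Finset.sum_congr rfl fun d hd => ?_
    rw [Finset.mem_filter, Nat.mem_divisors] at hd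
    rw [hv d hd.1.1 hd.2, hnu d hd.1.1]
    simp
  rw [e1] at hR
  obtain ⟨a, ha⟩ : (2 : ℤ) ^ (n.primeFactors.card + 1) ∣ (h n : ℤ) := by
    exact_mod_cast h_one n ⟨hs, hn1, h8, hp⟩
  obtain ⟨b, hb⟩ : (2 : ℤ) ^ n.primeFactors.card ∣ (h (2 * n) : ℤ) := by
    exact_mod_cast h_two n hs h8
  refine ⟨a, b, ?_⟩
  rw [← ha, ← hb]
  exact hR

/-- BLOCK B1. -/
theorem c_one (n : ℕ) (hn : One n) : (2 : ℤ) ^ (w n + 2) ∣ c n := by
  have e1 : GNF.ce 1 = 2 := by
    rw [GNF.RE 1 (by norm_num), GNF.dv_cb1]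
    simp [GNF.sn]
  refine b1_core GNF.tc GNF.ce One ?_ GNF.dv_tc1 e1 (fun n hn => GNF.DV n hn.1 (Or.inl hn.2.2.1))
    (fun n hn => GNF.DVe n hn.1 hn.2.2.1) b1_one n hn
  rintro n ⟨hs, hn1, h8, hp⟩
  exact ⟨hs, hn1, h8, fun d hd hd8 hd1 => ⟨hs.squarefree_of_dvd hd, hd1, hd8,
    fun p hpp hpd => hp p hpp (hpd.trans hd)⟩⟩

end Pool.Agent.GL
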