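import Pool.Agent.Lib_helper28.GL.Wit

/-!
# The lower bound for `f_G` at the level of one subgroup
-/

set_option autoImplicit false

namespace Pool.Agent.GL

open Finset

variable {G : Type*} [AddCommGroup G]

/-- the data of a level: `E` is the exponent of `G / H` -/
structure Lv (H : AddSubgroup G) (E : ℕ) : Prop where
  pos : 1 ≤ E
  max : ∀ t, Alive H t → t ≤ E
  alive : Alive H E
  K : ∃ K : AddSubgroup G, H ≤ K ∧ Nat.card K = E * Nat.card H ∧
        ∀ t, t ≤ (E / 3) * Nat.card H → ∃ S : Finset G, (∀ x ∈ S, x ∈ K) ∧ SF S ∧ S.card = t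

theorem exists_Lv [Finite G] (H : AddSubgroup G) : ∃ E, Lv H E := by
  obtain ⟨E, h1, h2, h3, h4⟩ := exists_level H
  exact ⟨E, h1, h2, h3, h4⟩

/-- type I in the cyclic extension -/
theorem Lv.wI {H : AddSubgroup G} {E : ℕ} (L : Lv H E) {b : ℕ} (h1 : b ≤ E * Nat.card H)
    (h2 : E * Nat.card H ≤ b + (E / 3) * Nat.card H) :
    W G b ((3 * (b : ℤ) - 2 * ((E : ℤ) * Nat.card H)) ^ 2) := by
  obtain ⟨K, _, hK, hS⟩ := L.K
  obtain ⟨S, hS1, hS2, hS3⟩ := hS (E * Nat.card H - b) (by omega)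
  left
  refine ⟨K, S, hS1, hS2, by omega, ?_⟩
  rw [hK]; push_cast; ring

/-- beyond the cyclic extension -/
theorem Lv.above [Finite G] {H : AddSubgroup G} {E : ℕ} (L : Lv H E) {b : ℕ}
    (h0 : E * Nat.card H < b) (h1 : b ≤ 2 * (E * Nat.card H)) (h2 : b ≤ Nat.card G) :
    W G b ((2 * ((E : ℤ) * Nat.card H) - b) * (6 * ((E : ℤ) * Nat.card H) - 5 * b)) := by
  obtain ⟨K, _, hK, _⟩ := L.K
  have hne : K ≠ ⊤ := by
    rintro rfl
    rw [AddSubgroup.card_top] at hK
    omega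
  have := WII_above hne (b := b) (by omega) (by omega)
  rw [hK] at this
  push_cast at this
  exact this

/-- type II from below at the level `H` -/
theorem WII_below {H : AddSubgroup G} {j s b : ℕ} (hs : s ≤ Nat.card H)
    (hb : b + s = (2 * j + 1) * Nat.card H) (ha : Alive H (3 * j + 1)) :
    W G b (((Nat.card H : ℤ) - s) * ((Nat.card H : ℤ) - 5 * s)) :=
  Or.inr ⟨H, j, s, hs, rfl, Or.inl ⟨hb, ha⟩⟩

/-- type II from above at the level `H` -/
theorem WII_up {H : AddSubgroup G} {j s b : ℕ} (hs : s ≤ Nat.card H)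
    (hb : b = (2 * j + 1) * Nat.card H + s) (ha : Alive H (3 * j + 2)) :
    W G b (((Nat.card H : ℤ) - s) * ((Nat.card H : ℤ) - 5 * s)) :=
  Or.inr ⟨H, j, s, hs, rfl, Or.inr ⟨hb, ha⟩⟩

/-- the three possibilities at the level `H` for `b ≤ E h`, with `2 i h ≤ b ≤ (2 i + 2) h` -/
theorem Lv.cases [Finite G] {H : AddSubgroup G} {E : ℕ} (L : Lv H E) {b i : ℕ}
    (h1 : b ≤ E * Nat.card H) (h2 : 2 * i * Nat.card H ≤ b) (h3 : b ≤ (2 * i + 2) * Nat.card H) :
    (∃ s : ℕ, s ≤ Nat.card H ∧ (b + s = (2 * i + 1) * Nat.card H ∨ b = (2 * i + 1) * Nat.card H + s) ∧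
      W G b (((Nat.card H : ℤ) - s) * ((Nat.card H : ℤ) - 5 * s))) ∨
    W G b ((3 * (b : ℤ) - 2 * ((E : ℤ) * Nat.card H)) ^ 2) := by
  set h := Nat.card H with hh
  have e1 : (2 * i + 2) * h = 2 * i * h + 2 * h := by ring
  have e2 : (2 * i + 1) * h = 2 * i * h + h := by ring
  rcases le_total b ((2 * i + 1) * h) with hb | hb
  · by_cases hE : 3 * i + 1 ≤ E
    · left
      refine ⟨(2 * i + 1) * h - b, by omega, Or.inl (by omega), ?_⟩
      exact WII_below (j := i) (by omega) (by rw [← hh]; omega) (L.alive.mono hE)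
    · right
      refine L.wI h1 ?_
      have h4 : E ≤ 2 * i + E / 3 := by omega
      calc E * h ≤ (2 * i + E / 3) * h := Nat.mul_le_mul_right _ h4
        _ = 2 * i * h + (E / 3) * h := by ring
        _ ≤ b + (E / 3) * h := by omega
  · by_cases hE : 3 * i + 2 ≤ E
    · left
      refine ⟨b - (2 * i + 1) * h, by omega, Or.inr (by omega), ?_⟩
      exact WII_up (j := i) (by omega) (by rw [← hh]; omega) (L.alive.mono hE)
    · right
      refine L.wI h1 ?_
      have h4 : E ≤ 2 * i + 1 + E / 3 := by omega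
      calc E * h ≤ (2 * i + 1 + E / 3) * h := Nat.mul_le_mul_right _ h4
        _ = (2 * i + 1) * h + (E / 3) * h := by ring
        _ ≤ b + (E / 3) * h := by omega

/-- `f_G(b) ≥ - 4 h² / 5` for `b ≤ E h` -/
theorem Lv.lb [Finite G] {H : AddSubgroup G} {E : ℕ} (L : Lv H E) {b : ℕ} {F : ℤ}
    (h1 : b ≤ E * Nat.card H) (hF : 5 * F ≤ -4 * (Nat.card H : ℤ) ^ 2) : Bd G b F := by
  have hpos : 0 < Nat.card H := Nat.card_pos
  have h2 : 2 * (b / (2 * Nat.card H)) * Nat.card H ≤ b := by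
    calc 2 * (b / (2 * Nat.card H)) * Nat.card H = b / (2 * Nat.card H) * (2 * Nat.card H) := by ring
      _ ≤ b := Nat.div_mul_le_self _ _
  have h3 : b ≤ (2 * (b / (2 * Nat.card H)) + 2) * Nat.card H := by
    have := Nat.lt_div_mul_add (a := b) (b := 2 * Nat.card H) (by omega)
    calc b ≤ b / (2 * Nat.card H) * (2 * Nat.card H) + 2 * Nat.card H := this.le
      _ = (2 * (b / (2 * Nat.card H)) + 2) * Nat.card H := by ring
  rcases L.cases h1 h2 h3 with ⟨s, _, _, hW⟩ | hW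
  · refine ⟨_, hW, ?_⟩
    nlinarith [sq_nonneg (3 * (Nat.card H : ℤ) - 5 * s)]
  · refine ⟨_, hW, ?_⟩
    nlinarith [sq_nonneg (3 * (b : ℤ) - 2 * ((E : ℤ) * Nat.card H)), sq_nonneg (Nat.card H : ℤ)]

/-- **Lower bound** `f_G(b) ≥ - b² / 3`. -/
theorem LB [Finite G] {b : ℕ} {F : ℤ} (h1 : 1 ≤ b) (h2 : b ≤ Nat.card G)
    (hF : 3 * F ≤ -(b : ℤ) ^ 2) : Bd G b F := by
  classical
  -- a subgroup of maximal order at most `b`
  obtain ⟨K, hKb, hKmax⟩ : ∃ K : AddSubgroup G, Nat.card K ≤ b ∧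
      ∀ K' : AddSubgroup G, Nat.card K' ≤ b → Nat.card K' ≤ Nat.card K := by
    have hne : {K : AddSubgroup G | Nat.card K ≤ b}.Nonempty := ⟨⊥, by simpa using h1⟩
    have hfin : {K : AddSubgroup G | Nat.card K ≤ b}.Finite := Set.toFinite _
    obtain ⟨K, hK1, hK2⟩ := Set.exists_max_image _ (fun K : AddSubgroup G => Nat.card K) hfin hne
    exact ⟨K, hK1, hK2⟩
  obtain ⟨E, L⟩ := exists_Lv K
  have hpos : 0 < Nat.card K := Nat.card_pos
  by_cases htop : K = ⊤
  · subst htop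
    have hb : b = Nat.card G := le_antisymm h2 (by simpa using hKb)
    refine ⟨_, WII_below (H := (⊤ : AddSubgroup G)) (j := 0) (s := 0) (b := b) (by simp)
      (by rw [AddSubgroup.card_top]; omega) (alive_one _), ?_⟩
    push_cast
    nlinarith [sq_nonneg (b : ℤ), sq_nonneg (Nat.card (⊤ : AddSubgroup G) : ℤ)]
  have hE2 : 2 ≤ E := L.max 2 (alive_two htop)
  have hbE : b ≤ E * Nat.card K := by
    obtain ⟨K', _, hK', _⟩ := L.K
    by_contra hlt
    push Not at hlt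
    have := hKmax K' (by omega)
    rw [hK'] at this
    nlinarith
  rcases le_total b (2 * Nat.card K) with hb2 | hb2
  · -- `j = 0`, from above
    refine ⟨_, WII_above htop hKb hb2, ?_⟩
    nlinarith [sq_nonneg (3 * (Nat.card K : ℤ) - 2 * b)]
  · refine L.lb hbE ?_
    have : (2 * (Nat.card K : ℤ)) ≤ b := by exact_mod_cast hb2
    have h0 : (0 : ℤ) ≤ Nat.card K := by positivity
    nlinarith

theorem Bd_zero [Finite G] : Bd G 0 0 := ⟨0, W_zero, le_rfl⟩

end Pool.Agent.GL
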