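import Mathlib

/-!
# The numerical inequalities of the gluing lemma, index two
-/

set_option autoImplicit false

namespace Pool.Agent.GL.Num

/-! ### `9 r²`, type II from below: `c = 2A + h - s`, `2 r ≤ c` -/

theorem q1 {h s A r : ℤ} (hr : 0 ≤ r) (hA : 0 ≤ 12 * h + 12 * A - 16 * s - 4 * r) :
    (h - s) * (h - 5 * s) - 6 * (2 * A + h - s) * r + 9 * r ^ 2 ≤
      (h - (s - r)) * (h - 5 * (s - r)) := by
  nlinarith [mul_nonneg hr hA]

/-- `j = 0`, `r = s + x`, type I in the group of order `2h` -/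
theorem q2 {h s x : ℤ} (hs0 : 0 ≤ s) (hr : 2 * (s + x) ≤ h - s) :
    (h - s) * (h - 5 * s) - 6 * (h - s) * (s + x) + 9 * (s + x) ^ 2 ≤
      (3 * (h + x) - 4 * h) ^ 2 := by
  nlinarith [mul_nonneg hs0 (show 0 ≤ h - s - 2 * (s + x) by linarith), mul_nonneg hs0 hs0]

/-- `r = s + x`, alive from above -/
theorem q3 {h s A x : ℤ} (hs0 : 0 ≤ s) (hs1 : s ≤ h) (hx0 : 0 ≤ x) (hx1 : x ≤ h) (hA : h ≤ A)
    (hr : 2 * (s + x) ≤ 2 * A + h - s) :
    (h - s) * (h - 5 * s) - 6 * (2 * A + h - s) * (s + x) + 9 * (s + x) ^ 2 ≤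
      (h - x) * (h - 5 * x) := by
  nlinarith [mul_nonneg (show 0 ≤ A - h by linarith) (show 0 ≤ 12 * s + 12 * x by linarith),
      mul_nonneg hs0 (show 0 ≤ h - s by linarith), mul_nonneg hs0 (show 0 ≤ h - x by linarith),
      mul_nonneg hx0 (show 0 ≤ h - s by linarith), mul_nonneg (show 0 ≤ h - s by linarith)
        (show 0 ≤ h - x by linarith), mul_nonneg hx0 (show 0 ≤ h - x by linarith),
      mul_nonneg hx0 (show 0 ≤ 2 * A + h - s - 2 * (s + x) by linarith),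
      mul_nonneg hs0 (show 0 ≤ 2 * A + h - s - 2 * (s + x) by linarith), sq_nonneg (h - s),
      sq_nonneg (h - x), mul_nonneg hs0 hx0]

/-- `r = s + x`, dead, type I in `K`, `|K| = 3A + h` -/
theorem q4 {h s A x : ℤ} (hs0 : 0 ≤ s) (hs1 : s ≤ h) (hx0 : 0 ≤ x) (hA : h ≤ A) :
    (h - s) * (h - 5 * s) - 6 * (2 * A + h - s) * (s + x) + 9 * (s + x) ^ 2 ≤
      (h + 3 * x) ^ 2 := by
  nlinarith [mul_nonneg hs0 (show 0 ≤ h - s by linarith), mul_nonneg hx0 (show 0 ≤ h - s by linarith),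
    mul_nonneg hx0 (show 0 ≤ A - h by linarith), mul_nonneg hs0 (show 0 ≤ A - h by linarith),
    mul_nonneg hx0 hx0]

theorem q5 {h s A r : ℤ} (hs0 : 0 ≤ s) (hs1 : s ≤ h) (hA : h ≤ A) (hr0 : h + s ≤ r)
    (hr1 : 2 * r ≤ 2 * A + h - s) :
    5 * ((h - s) * (h - 5 * s) - 6 * (2 * A + h - s) * r + 9 * r ^ 2) ≤ -4 * h ^ 2 := by
  nlinarith [mul_nonneg (show 0 ≤ r - (h + s) by linarith)
      (show 0 ≤ 2 * A + h - s - 2 * r by linarith),
    mul_nonneg (show 0 ≤ r - (h + s) by linarith) (show 0 ≤ A - h by linarith),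
    mul_nonneg (show 0 ≤ A - h by linarith) hs0,
    mul_nonneg (show 0 ≤ A - h by linarith) (show 0 ≤ h by linarith),
    mul_nonneg hs0 (show 0 ≤ h - s by linarith),
    mul_nonneg (show 0 ≤ r - (h + s) by linarith) hs0,
    mul_nonneg (show 0 ≤ r - (h + s) by linarith) (show 0 ≤ h - s by linarith),
    mul_nonneg (show 0 ≤ A - h by linarith) (show 0 ≤ h - s by linarith),
    mul_nonneg (show 0 ≤ h by linarith) (show 0 ≤ 2 * A + h - s - 2 * r by linarith),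
    mul_nonneg hs0 (show 0 ≤ 2 * A + h - s - 2 * r by linarith)]

/-- beyond `k = |K|`, `b = c + r`: `k < c + r` -/
theorem q6 {k c r f0 : ℤ} (hk : c ≤ k) (hkr : k ≤ c + r) (hc : 0 ≤ c) (hr1 : 2 * r ≤ c)
    (hf1 : f0 ≤ c ^ 2) (hf2 : f0 ≤ 12 * (k - c) ^ 2) :
    f0 - 6 * c * r + 9 * r ^ 2 ≤ (2 * k - (c + r)) * (6 * k - 5 * (c + r)) := by
  have h1 : 0 ≤ (c + r - k) * (c - 2 * r) := mul_nonneg (by linarith) (by linarith)
  have h2 : 0 ≤ (k - c) * (3 * c - 2 * k) := mul_nonneg (by linarith) (by linarith)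
  -- concave in `r` between `r = k - c` and `r = c / 2`
  have key : 0 ≤ (3 * c - 2 * k) * ((2 * k - (c + r)) * (6 * k - 5 * (c + r)) - (f0 - 6 * c * r + 9 * r ^ 2)) := by
    nlinarith [mul_nonneg h1 (show 0 ≤ 3 * c - 2 * k by linarith),
      mul_nonneg (show 0 ≤ c - 2 * r by linarith) (show 0 ≤ c ^ 2 - f0 by linarith),
      mul_nonneg (show 0 ≤ c + r - k by linarith) (show 0 ≤ 12 * (k - c) ^ 2 - f0 by linarith),
      mul_nonneg (show 0 ≤ c - 2 * r by linarith) h2]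
  rcases (show 0 ≤ 3 * c - 2 * k by linarith).lt_or_eq with h3 | h3
  · have := nonneg_of_mul_nonneg_right key h3
    linarith
  · have h4 : r = k - c := by linarith
    have h5 : 2 * k = 3 * c := by linarith
    subst h4
    nlinarith

/-! ### `9 r²`, type II from above: `c = 2A + h + s` -/

theorem t1 {h s A r : ℤ} (hs0 : 0 ≤ s) (hr : 0 ≤ r) (hA : h ≤ A) (hr1 : r ≤ h) (_hh : 0 ≤ h) :
    (h - s) * (h - 5 * s) - 6 * (2 * A + h + s) * r + 9 * r ^ 2 ≤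
      (h - (s + r)) * (h - 5 * (s + r)) := by
  nlinarith [mul_nonneg hr hs0, mul_nonneg hr (show 0 ≤ A - h by linarith),
    mul_nonneg hr (show 0 ≤ h - r by linarith)]

/-- `j = 0`, `b ≤ 2h` -/
theorem t2 {h s r : ℤ} (hs0 : 0 ≤ s) (hr : 0 ≤ r) :
    (h - s) * (h - 5 * s) - 6 * (h + s) * r + 9 * r ^ 2 ≤ (3 * (h + s + r) - 4 * h) ^ 2 := by
  nlinarith [mul_nonneg hr hs0, mul_nonneg hs0 hs0]

/-- `j = 0`, `b = 2h + y` -/
theorem t3 {h s y : ℤ} (hs0 : 0 ≤ s) (hs1 : s ≤ h) (hy0 : 0 ≤ y)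
    (hr : 2 * (h - s + y) ≤ h + s) :
    (h - s) * (h - 5 * s) - 6 * (h + s) * (h - s + y) + 9 * (h - s + y) ^ 2 ≤
      (2 * (2 * h) - (2 * h + y)) * (6 * (2 * h) - 5 * (2 * h + y)) := by
  nlinarith [mul_nonneg hy0 (show 0 ≤ 3 * s - h - 2 * y by linarith),
    mul_nonneg (show 0 ≤ h - s by linarith) (show 0 ≤ 3 * s - h - 2 * y by linarith),
    mul_nonneg hs0 (show 0 ≤ h - s by linarith), mul_nonneg hy0 (show 0 ≤ h - s by linarith),
    mul_nonneg hy0 hs0, sq_nonneg (h - s)]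

/-- `j ≥ 1`, `0 ≤ y ≤ h`, from below -/
theorem t4 {h s A y : ℤ} (hs0 : 0 ≤ s) (hs1 : s ≤ h) (hy0 : 0 ≤ y) (hy1 : y ≤ h) (hA : h ≤ A)
    (hr : 2 * (h - s + y) ≤ 2 * A + h + s) :
    (h - s) * (h - 5 * s) - 6 * (2 * A + h + s) * (h - s + y) + 9 * (h - s + y) ^ 2 ≤
      (h - (h - y)) * (h - 5 * (h - y)) := by
  nlinarith [mul_nonneg (show 0 ≤ A - h by linarith) (show 0 ≤ h - s by linarith),
      mul_nonneg (show 0 ≤ A - h by linarith) hy0, mul_nonneg hs0 (show 0 ≤ h - s by linarith),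
      mul_nonneg hy0 hs0, mul_nonneg hy0 (show 0 ≤ h by linarith),
      mul_nonneg hy0 (show 0 ≤ h - y by linarith),
      mul_nonneg hy0 (show 0 ≤ 2 * A + h + s - 2 * (h - s + y) by linarith),
      mul_nonneg (show 0 ≤ h - s by linarith) (show 0 ≤ 2 * A + h + s - 2 * (h - s + y) by linarith),
      mul_nonneg (show 0 ≤ h - y by linarith) (show 0 ≤ h - s by linarith),
      mul_nonneg (show 0 ≤ h by linarith) (show 0 ≤ h - s by linarith)]

/-- `j ≥ 1`: `V ≤ 0` for `y ≥ 0` -/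
theorem t5 {h s A y : ℤ} (hs0 : 0 ≤ s) (hs1 : s ≤ h) (hy0 : 0 ≤ y) (hA : h ≤ A)
    (hr : 2 * (h - s + y) ≤ 2 * A + h + s) :
    (h - s) * (h - 5 * s) - 6 * (2 * A + h + s) * (h - s + y) + 9 * (h - s + y) ^ 2 ≤ 0 := by
  nlinarith [mul_nonneg (show 0 ≤ A - h by linarith) (show 0 ≤ h - s by linarith),
      mul_nonneg (show 0 ≤ A - h by linarith) hy0, mul_nonneg hs0 (show 0 ≤ h - s by linarith),
      mul_nonneg hy0 hs0, mul_nonneg hy0 (show 0 ≤ h by linarith),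
      mul_nonneg hy0 (show 0 ≤ 2 * A + h + s - 2 * (h - s + y) by linarith),
      mul_nonneg (show 0 ≤ h - s by linarith) (show 0 ≤ 2 * A + h + s - 2 * (h - s + y) by linarith),
      mul_nonneg hy0 (show 0 ≤ h - s by linarith),
      mul_nonneg (show 0 ≤ h by linarith) (show 0 ≤ h - s by linarith)]

/-- `j ≥ 1`, `y ≥ h` -/
theorem t6 {h s A y : ℤ} (hs0 : 0 ≤ s) (hs1 : s ≤ h) (hA : h ≤ A) (hy : h ≤ y)
    (hr1 : 2 * (h - s + y) ≤ 2 * A + h + s) :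
    5 * ((h - s) * (h - 5 * s) - 6 * (2 * A + h + s) * (h - s + y) + 9 * (h - s + y) ^ 2) ≤
      -4 * h ^ 2 := by
  nlinarith [mul_nonneg (show 0 ≤ y - h by linarith)
      (show 0 ≤ 2 * A + h + s - 2 * (h - s + y) by linarith),
    mul_nonneg (show 0 ≤ y - h by linarith) (show 0 ≤ A - h by linarith),
    mul_nonneg (show 0 ≤ A - h by linarith) hs0,
    mul_nonneg (show 0 ≤ A - h by linarith) (show 0 ≤ h by linarith),
    mul_nonneg hs0 (show 0 ≤ h - s by linarith),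
    mul_nonneg (show 0 ≤ y - h by linarith) hs0,
    mul_nonneg (show 0 ≤ y - h by linarith) (show 0 ≤ h - s by linarith),
    mul_nonneg (show 0 ≤ A - h by linarith) (show 0 ≤ h - s by linarith),
    mul_nonneg (show 0 ≤ h by linarith) (show 0 ≤ 2 * A + h + s - 2 * (h - s + y) by linarith),
    mul_nonneg hs0 (show 0 ≤ 2 * A + h + s - 2 * (h - s + y) by linarith)]

/-! ### type I -/

theorem j1 {k s r : ℤ} (hs1 : 2 * s ≤ k) (hr : 0 ≤ r) :
    (3 * (k - s) - 2 * k) ^ 2 - 6 * (k - s) * r + 9 * r ^ 2 ≤ (3 * (k - s + r) - 2 * k) ^ 2 := by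
  nlinarith [mul_nonneg hr (show 0 ≤ k - 2 * s by linarith)]

theorem j2 {k s r : ℤ} (hs0 : 0 ≤ s) (hr : 2 * r ≤ k - s) :
    (3 * (k - s) - 2 * k) ^ 2 - 6 * (k - s) * r + 9 * r ^ 2 ≤
      (3 * (k - s + r) - 4 * k) ^ 2 := by
  nlinarith [mul_nonneg hs0 (show 0 ≤ k - s - 2 * r by linarith), mul_nonneg hs0 hs0]

end Pool.Agent.GL.Num
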