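import Pool.Agent.Lib_helper28.GL.Level
import Pool.Agent.Lib_helper28.GL.Num2

/-!
# `f_M(c) - 6 c r + 9 r² ≤ f_G(c + r)` for `2 r ≤ c`, `M` of index two
-/

set_option autoImplicit false

namespace Pool.Agent.GL

open Finset

variable {G : Type*} [AddCommGroup G]

/-- a subgroup of twice the order, and type I sets in it -/
theorem double [Finite G] {K : AddSubgroup G} (h2 : 2 * Nat.card K ∣ Nat.card G) :
    ∃ K' : AddSubgroup G, Nat.card K' = 2 * Nat.card K ∧
      ∀ t, t ≤ Nat.card K → ∃ S : Finset G, (∀ x ∈ S, x ∈ K') ∧ SF S ∧ S.card = t := by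
  classical
  have := Fintype.ofFinite G
  have hpos : 0 < Nat.card K := Nat.card_pos
  have hdiv : 2 ∣ Nat.card (G ⧸ K) := by
    have h1 := AddSubgroup.card_eq_card_quotient_mul_card_addSubgroup K
    obtain ⟨a, ha⟩ := h2
    refine ⟨a, ?_⟩
    have : Nat.card (G ⧸ K) * Nat.card K = (2 * a) * Nat.card K := by rw [← h1, ha]; ring
    exact Nat.eq_of_mul_eq_mul_right hpos this
  obtain ⟨gb, hgb⟩ := exists_prime_addOrderOf_dvd_card' (G := G ⧸ K) 2 hdiv
  obtain ⟨g, rfl⟩ := QuotientAddGroup.mk_surjective gb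
  have hg1 : g ∉ K := by
    intro h
    have : ((g : G) : G ⧸ K) = 0 := (QuotientAddGroup.eq_zero_iff g).2 h
    rw [this, addOrderOf_zero] at hgb
    omega
  have hg2 : g + g ∈ K := by
    rw [← QuotientAddGroup.eq_zero_iff]
    have := addOrderOf_nsmul_eq_zero ((g : G) : G ⧸ K)
    rw [hgb, two_nsmul] at this
    exact this
  let K' : AddSubgroup G :=
    { carrier := {x | x ∈ K ∨ x - g ∈ K}
      zero_mem' := Or.inl K.zero_mem
      add_mem' := by
        intro a b ha hb
        rcases ha with ha | ha <;> rcases hb with hb | hb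
        · exact Or.inl (K.add_mem ha hb)
        · right
          have : a + b - g = a + (b - g) := by abel
          rw [this]; exact K.add_mem ha hb
        · right
          have : a + b - g = (a - g) + b := by abel
          rw [this]; exact K.add_mem ha hb
        · left
          have : a + b = (a - g) + (b - g) + (g + g) := by abel
          rw [this]; exact K.add_mem (K.add_mem ha hb) hg2
      neg_mem' := by
        intro a ha
        rcases ha with ha | ha
        · exact Or.inl (K.neg_mem ha)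
        · right
          have : -a - g = -(a - g) - (g + g) := by abel
          rw [this]; exact K.sub_mem (K.neg_mem ha) hg2 }
  have mK' : ∀ x, x ∈ K' ↔ x ∈ K ∨ x - g ∈ K := fun x => Iff.rfl
  have hsum : ∀ x : G, x ∈ K → x - g ∈ K → False := fun x h1 h2 => hg1 (by
    have : g = x - (x - g) := by abel
    rw [this]; exact K.sub_mem h1 h2)
  refine ⟨K', ?_, ?_⟩
  · have hbij : Function.Bijective (fun p : K ⊕ K => (Sum.elim
        (fun x : K => (⟨x, (mK' _).2 (Or.inl x.2)⟩ : K'))
        (fun x : K => (⟨g + x, (mK' _).2 (Or.inr (by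
          have : g + (x : G) - g = x := by abel
          rw [this]; exact x.2))⟩ : K')) p)) := by
      constructor
      · rintro (x | x) (y | y) hxy <;> simp only [Sum.elim_inl, Sum.elim_inr, Subtype.mk.injEq] at hxy
        · exact congrArg _ (Subtype.ext hxy)
        · exfalso
          refine hsum x x.2 ?_
          have : (x : G) - g = y := by rw [hxy]; abel
          rw [this]; exact y.2
        · exfalso
          refine hsum y y.2 ?_
          have : (y : G) - g = x := by rw [← hxy]; abel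
          rw [this]; exact x.2
        · exact congrArg _ (Subtype.ext (by simpa using hxy))
      · rintro ⟨z, hz⟩
        rcases (mK' z).1 hz with h | h
        · exact ⟨Sum.inl ⟨z, h⟩, rfl⟩
        · refine ⟨Sum.inr ⟨z - g, h⟩, ?_⟩
          simp only [Sum.elim_inr]
          apply Subtype.ext
          simp
    rw [← Nat.card_eq_of_bijective _ hbij, Nat.card_sum]
    ring
  · intro t ht
    set S0 : Finset G := Finset.image (fun x : K => g + (x : G)) (univ : Finset K) with hS0
    have hS0c : S0.card = Nat.card K := by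
      rw [hS0, card_image_of_injective, card_univ, Nat.card_eq_fintype_card]
      intro x y hxy
      exact Subtype.ext (by simpa using hxy)
    have mem0 : ∀ x ∈ S0, x - g ∈ K := by
      intro x hx
      obtain ⟨y, _, rfl⟩ := mem_image.1 hx
      have : g + (y : G) - g = y := by abel
      rw [this]; exact y.2
    obtain ⟨S, hSS, hSc⟩ := Finset.exists_subset_card_eq (s := S0) (n := t) (by rw [hS0c]; exact ht)
    refine ⟨S, fun x hx => (mK' x).2 (Or.inr (mem0 x (hSS hx))), fun x hx y hy hxy => ?_, hSc⟩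
    have h1 := mem0 x (hSS hx)
    have h2 := mem0 y (hSS hy)
    have h3 := mem0 _ (hSS hxy)
    refine hsum (x + y) ?_ h3
    have : x + y = (x - g) + (y - g) + (g + g) := by abel
    rw [this]; exact K.add_mem (K.add_mem h1 h2) hg2

theorem WI_double [Finite G] {K : AddSubgroup G} (h2 : 2 * Nat.card K ∣ Nat.card G) {b : ℕ}
    (hb1 : Nat.card K ≤ b) (hb2 : b ≤ 2 * Nat.card K) :
    W G b ((3 * (b : ℤ) - 4 * (Nat.card K : ℤ)) ^ 2) := by
  obtain ⟨K', hK', hS⟩ := double h2
  obtain ⟨S, hS1, hS2, hS3⟩ := hS (2 * Nat.card K - b) (by omega)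
  left
  refine ⟨K', S, hS1, hS2, by omega, ?_⟩
  rw [hK']; push_cast; ring

theorem N2_I [Finite G] {K : AddSubgroup G} (hd : 2 * Nat.card K ∣ Nat.card G) {S : Finset G}
    (hS : ∀ x ∈ S, x ∈ K) (hf : SF S) {c r : ℕ} (hc : S.card + c = Nat.card K)
    (hr : 2 * r ≤ c) :
    Bd G (c + r) ((3 * (c : ℤ) - 2 * (Nat.card K : ℤ)) ^ 2 - 6 * c * r + 9 * r ^ 2) := by
  classical
  have h2 : 2 * S.card ≤ Nat.card K := SF_card hS hf
  have hcz : (c : ℤ) = (Nat.card K : ℤ) - S.card := by
    have : ((S.card + c : ℕ) : ℤ) = Nat.card K := by rw [hc]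
    push_cast at this; linarith
  rcases le_total r S.card with h | h
  · obtain ⟨S', hS', hS'c⟩ := Finset.exists_subset_card_eq (s := S) (n := S.card - r) (by omega)
    refine ⟨(3 * ((c + r : ℕ) : ℤ) - 2 * (Nat.card K : ℤ)) ^ 2, Or.inl ⟨K, S', fun x hx => hS x (hS' hx),
      fun x hx y hy hxy => hf x (hS' hx) y (hS' hy) (hS' hxy), by omega, rfl⟩, ?_⟩
    push_cast
    rw [hcz]
    exact Num.j1 (by exact_mod_cast h2) (by positivity)
  · refine ⟨_, WI_double hd (b := c + r) (by omega) (by omega), ?_⟩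
    push_cast
    rw [hcz]
    refine Num.j2 (by positivity) ?_
    rw [← hcz]; exact_mod_cast hr

theorem z4 {c h r : ℤ} (h0 : 0 ≤ c) (h1 : 7 * c ≤ 2 * h) (hr0 : 0 ≤ r) (hr : 2 * r ≤ c) :
    3 * (c * (5 * c - 4 * h) - 6 * c * r + 9 * r ^ 2) ≤ -(c + r) ^ 2 := by
  nlinarith [mul_nonneg h0 (show 0 ≤ 2 * h - 7 * c by linarith), mul_nonneg h0 hr0,
    mul_nonneg h0 h0, mul_nonneg hr0 (show 0 ≤ c - 2 * r by linarith)]

theorem z5 {h s A : ℤ} (hs0 : 0 ≤ s) (hs1 : s ≤ h) (hA : h ≤ A) :
    (h - s) * (h - 5 * s) ≤ (2 * A + h - s) ^ 2 := by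
  nlinarith [mul_nonneg (show 0 ≤ A - h by linarith) (show 0 ≤ A + h by linarith),
    mul_nonneg (show 0 ≤ A - h by linarith) (show 0 ≤ h - s by linarith),
    mul_nonneg hs0 (show 0 ≤ h - s by linarith), mul_nonneg (show 0 ≤ h by linarith)
      (show 0 ≤ h - s by linarith)]

theorem z6 {h s A : ℤ} (hs0 : 0 ≤ s) (hs1 : s ≤ h) (hA : h ≤ A) :
    (h - s) * (h - 5 * s) ≤ (2 * A + h + s) ^ 2 := by
  nlinarith [mul_nonneg (show 0 ≤ A - h by linarith) (show 0 ≤ A + h by linarith),
    mul_nonneg (show 0 ≤ A - h by linarith) hs0, mul_nonneg (show 0 ≤ A - h by linarith)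
      (show 0 ≤ h by linarith),
    mul_nonneg hs0 (show 0 ≤ h - s by linarith), mul_nonneg (show 0 ≤ h by linarith)
      (show 0 ≤ h - s by linarith), mul_nonneg hs0 (show 0 ≤ h by linarith)]

theorem z7 {h s k c : ℤ} (hs0 : 0 ≤ s) (hs1 : s ≤ h) (hk : h ≤ k - c) :
    (h - s) * (h - 5 * s) ≤ 12 * (k - c) ^ 2 := by
  nlinarith [mul_nonneg (show 0 ≤ k - c - h by linarith) (show 0 ≤ k - c + h by linarith),
    mul_nonneg hs0 (show 0 ≤ h - s by linarith), mul_nonneg hs0 (show 0 ≤ h by linarith),
    mul_nonneg (show 0 ≤ h by linarith) (show 0 ≤ h by linarith)]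

theorem N2_dn [Finite G] {H : AddSubgroup G} (hH : H ≠ ⊤) (hd : 2 * Nat.card H ∣ Nat.card G)
    {j s c r : ℕ} (hs : s ≤ Nat.card H)
    (hc : c + s = (2 * j + 1) * Nat.card H) (ha : Alive H (3 * j + 1)) (hr : 2 * r ≤ c)
    (hn : c + r ≤ Nat.card G) :
    Bd G (c + r) (((Nat.card H : ℤ) - s) * ((Nat.card H : ℤ) - 5 * s) - 6 * c * r + 9 * r ^ 2) := by
  classical
  obtain ⟨E, L⟩ := exists_Lv H
  have hE1 : 3 * j + 1 ≤ E := L.max _ ha
  have hE2 : 2 ≤ E := L.max 2 (alive_two hH)
  have hpos : 0 < Nat.card H := Nat.card_pos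
  set h := Nat.card H with hh
  have hcn : c + s = 2 * (j * h) + h := by rw [hc]; ring
  have hcz : (c : ℤ) = 2 * ((j : ℤ) * h) + h - s := by
    have : ((c + s : ℕ) : ℤ) = ((2 * (j * h) + h : ℕ) : ℤ) := by rw [hcn]
    push_cast at this; linarith
  have hs' : (s : ℤ) ≤ h := by exact_mod_cast hs
  have hs0 : (0 : ℤ) ≤ s := by positivity
  have hr0 : (0 : ℤ) ≤ r := by positivity
  have hrz : 2 * (r : ℤ) ≤ c := by exact_mod_cast hr
  have hjA : j = 0 ∨ h ≤ j * h := by
    rcases Nat.eq_zero_or_pos j with h0 | h0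
    · exact Or.inl h0
    · exact Or.inr (Nat.le_mul_of_pos_left _ h0)
  rcases Nat.eq_zero_or_pos c with hc0 | hc0
  · -- `c = 0`
    subst hc0
    have hr00 : r = 0 := by omega
    subst hr00
    have : s = h := by omega
    subst this
    simpa using (Bd_zero (G := G))
  by_cases hsmall : j = 0 ∧ 5 * h < 7 * s
  · obtain ⟨rfl, hs4⟩ := hsmall
    refine LB (by omega) hn ?_
    have e1 : (h : ℤ) - s = c := by rw [hcz]; push_cast; ring
    have e2 : (h : ℤ) - 5 * s = 5 * c - 4 * h := by rw [hcz]; push_cast; ring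
    rw [e1, e2]
    push_cast
    refine z4 (by positivity) ?_ hr0 hrz
    have : 5 * (h : ℤ) < 7 * s := by exact_mod_cast hs4
    linarith
  rcases le_total r s with hrs | hrs
  · -- fewer missing elements
    refine ⟨_, WII_below (j := j) (s := s - r) (b := c + r) (by omega) (by rw [← hh]; omega) ha, ?_⟩
    rw [← hh, hcz]
    push_cast [Nat.cast_sub hrs]
    refine Num.q1 hr0 ?_
    have hrsz : (r : ℤ) ≤ s := by exact_mod_cast hrs
    rcases hjA with h0 | h0
    · have h5 : 7 * s ≤ 5 * h := by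
        by_contra hlt; exact hsmall ⟨h0, by omega⟩
      have h6 : 7 * (s : ℤ) ≤ 5 * h := by exact_mod_cast h5
      subst h0
      push_cast at hcz ⊢
      linarith
    · have : (h : ℤ) ≤ (j : ℤ) * h := by exact_mod_cast h0
      linarith
  · obtain ⟨x, rfl⟩ := Nat.exists_eq_add_of_le hrs
    have hx0 : (0 : ℤ) ≤ x := by positivity
    have hrz' : 2 * ((s : ℤ) + x) ≤ 2 * ((j : ℤ) * h) + h - s := by
      rw [← hcz]; push_cast at hrz; linarith
    rcases hjA with h0 | h0
    · subst h0
      refine ⟨_, WI_double hd (b := c + (s + x)) (by rw [← hh]; omega) (by rw [← hh]; omega), ?_⟩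
      rw [← hh]
      have e : (3 * ((c + (s + x) : ℕ) : ℤ) - 4 * (h : ℤ)) = 3 * (h + x) - 4 * h := by
        push_cast; rw [hcz]; push_cast; ring
      rw [e, hcz]
      push_cast
      have := Num.q2 (h := (h : ℤ)) (s := s) (x := x) hs0 (by push_cast at hrz'; linarith)
      have e3 : 2 * (0 * (h : ℤ)) + h - s = h - s := by ring
      rw [e3]
      exact this
    have hj1z : (h : ℤ) ≤ (j : ℤ) * h := by exact_mod_cast h0
    by_cases hx : x ≤ h
    · have hxz : (x : ℤ) ≤ h := by exact_mod_cast hx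
      by_cases hE : 3 * j + 2 ≤ E
      · refine ⟨_, WII_up (j := j) (s := x) (b := c + (s + x)) hx (by rw [← hh]; omega)
          (L.alive.mono hE), ?_⟩
        rw [← hh, hcz]
        push_cast
        exact Num.q3 hs0 hs' hx0 hxz hj1z hrz'
      · -- dead
        have hEj : E = 3 * j + 1 := by omega
        subst hEj
        have hb1 : c + (s + x) ≤ (3 * j + 1) * h := by
          have : (3 * j + 1) * h = 3 * (j * h) + h := by ring
          omega
        have hb2 : (3 * j + 1) * h ≤ c + (s + x) + ((3 * j + 1) / 3) * h := by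
          have h3 : (3 * j + 1) / 3 = j := by omega
          have : (3 * j + 1) * h = 3 * (j * h) + h := by ring
          rw [h3]; omega
        refine ⟨_, L.wI hb1 hb2, ?_⟩
        rw [← hh]
        have e : (3 * ((c + (s + x) : ℕ) : ℤ) - 2 * (((3 * j + 1 : ℕ) : ℤ) * h)) = h + 3 * x := by
          push_cast; rw [hcz]; ring
        rw [e, hcz]
        push_cast
        exact Num.q4 hs0 hs' hx0 hj1z
    · -- `x > h`
      push Not at hx
      by_cases hbE : c + (s + x) ≤ E * h
      · refine L.lb hbE ?_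
        rw [← hh, hcz]
        push_cast
        refine Num.q5 hs0 hs' hj1z ?_ hrz'
        have : (h : ℤ) < x := by exact_mod_cast hx
        linarith
      · push Not at hbE
        have hEh : (3 * j + 1) * h ≤ E * h := Nat.mul_le_mul_right _ hE1
        have e3 : (3 * j + 1) * h = 3 * (j * h) + h := by ring
        refine ⟨_, L.above hbE (by rw [← hh]; omega) hn, ?_⟩
        rw [← hh]
        push_cast
        have hEhz : 3 * ((j : ℤ) * h) + h ≤ (E : ℤ) * h := by
          rw [e3] at hEh; exact_mod_cast hEh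
        have hbEz : (E : ℤ) * h < c + (s + x) := by exact_mod_cast hbE
        have := Num.q6 (k := (E : ℤ) * h) (c := c) (r := ((s : ℤ) + x))
          (f0 := ((h : ℤ) - s) * ((h : ℤ) - 5 * s)) (by linarith) (by linarith) (by positivity)
          (by push_cast at hrz; linarith) (by rw [hcz]; exact z5 hs0 hs' hj1z)
          (z7 hs0 hs' (by linarith))
        exact this

theorem N2_up [Finite G] {H : AddSubgroup G} (hd : 2 * Nat.card H ∣ Nat.card G)
    {j s c r : ℕ} (hs : s ≤ Nat.card H)
    (hc : c = (2 * j + 1) * Nat.card H + s) (ha : Alive H (3 * j + 2)) (hr : 2 * r ≤ c)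
    (hn : c + r ≤ Nat.card G) :
    Bd G (c + r) (((Nat.card H : ℤ) - s) * ((Nat.card H : ℤ) - 5 * s) - 6 * c * r + 9 * r ^ 2) := by
  classical
  obtain ⟨E, L⟩ := exists_Lv H
  have hE1 : 3 * j + 2 ≤ E := L.max _ ha
  have hpos : 0 < Nat.card H := Nat.card_pos
  set h := Nat.card H with hh
  have hcn : c = 2 * (j * h) + h + s := by rw [hc]; ring
  have hcz : (c : ℤ) = 2 * ((j : ℤ) * h) + h + s := by
    rw [hcn]; push_cast; ring
  have hs' : (s : ℤ) ≤ h := by exact_mod_cast hs
  have hs0 : (0 : ℤ) ≤ s := by positivity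
  have hr0 : (0 : ℤ) ≤ r := by positivity
  have hrz : 2 * (r : ℤ) ≤ c := by exact_mod_cast hr
  rcases Nat.eq_zero_or_pos j with h0 | h0
  · subst h0
    push_cast at hcz
    have hcz' : (c : ℤ) = h + s := by linarith
    have hcn' : c = h + s := by omega
    rcases le_total (c + r) (2 * h) with hb | hb
    · refine ⟨_, WI_double hd (b := c + r) (by rw [← hh]; omega) (by rw [← hh]; omega), ?_⟩
      rw [← hh]
      push_cast
      rw [hcz']
      exact Num.t2 hs0 hr0
    · -- the group of order `2 h`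
      obtain ⟨K', hK', hS'⟩ := double hd
      rcases Nat.eq_or_lt_of_le hb with hb' | hb'
      · refine ⟨_, WI_double hd (b := c + r) (by rw [← hh]; omega) (by rw [← hh]; omega), ?_⟩
        rw [← hh]
        push_cast
        rw [hcz']
        exact Num.t2 hs0 hr0
      have hne : K' ≠ ⊤ := by
        rintro rfl
        rw [AddSubgroup.card_top] at hK'
        omega
      refine ⟨_, WII_above hne (b := c + r) (by omega) (by omega), ?_⟩
      rw [hK', ← hh]
      obtain ⟨y, hy⟩ := Nat.exists_eq_add_of_le hb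
      have hrr : (r : ℤ) = h - s + y := by
        have : ((c + r : ℕ) : ℤ) = ((2 * h + y : ℕ) : ℤ) := by rw [hy]
        push_cast at this; linarith
      have e : ((c + r : ℕ) : ℤ) = 2 * h + y := by rw [hy]; push_cast; ring
      rw [e, hrr, hcz']
      push_cast
      exact Num.t3 hs0 hs' (by positivity) (by rw [← hrr, ← hcz']; exact hrz)
  have hjA : h ≤ j * h := Nat.le_mul_of_pos_left _ h0
  have hj1z : (h : ℤ) ≤ (j : ℤ) * h := by exact_mod_cast hjA
  rcases le_total r (h - s) with hrs | hrs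
  · refine ⟨_, WII_up (j := j) (s := s + r) (b := c + r) (by rw [← hh]; omega)
      (by rw [← hh]; omega) ha, ?_⟩
    rw [← hh, hcz]
    push_cast
    exact Num.t1 hs0 hr0 hj1z (by
      have : r ≤ h := by omega
      exact_mod_cast this) (by positivity)
  · obtain ⟨y, rfl⟩ := Nat.exists_eq_add_of_le hrs
    have hy0 : (0 : ℤ) ≤ y := by positivity
    have hb : c + (h - s + y) = 2 * (j * h) + 2 * h + y := by omega
    have hrz' : 2 * ((h : ℤ) - s + y) ≤ 2 * ((j : ℤ) * h) + h + s := by
      rw [← hcz]; push_cast [Nat.cast_sub hs] at hrz; linarith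
    have hV : ((h - s + y : ℕ) : ℤ) = (h : ℤ) - s + y := by push_cast [Nat.cast_sub hs]; ring
    by_cases hbE : c + (h - s + y) ≤ E * h
    · by_cases hyh : y ≤ h
      · by_cases hE4 : 3 * j + 4 ≤ E
        · refine ⟨_, WII_below (j := j + 1) (s := h - y) (b := c + (h - s + y)) (by rw [← hh]; omega)
            ?_ (L.alive.mono (by omega)), ?_⟩
          · rw [← hh]
            have : (2 * (j + 1) + 1) * h = 2 * (j * h) + 3 * h := by ring
            omega
          · rw [← hh, hV, hcz]
            push_cast [Nat.cast_sub hyh]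
            exact Num.t4 hs0 hs' hy0 (by exact_mod_cast hyh) hj1z hrz'
        · -- dead
          refine ⟨_, L.wI hbE ?_, le_trans ?_ (sq_nonneg _)⟩
          · rw [← hh]
            have h4 : E ≤ 2 * j + 2 + E / 3 := by omega
            have h5 : E * h ≤ (2 * j + 2 + E / 3) * h := Nat.mul_le_mul_right _ h4
            have h6 : (2 * j + 2 + E / 3) * h = 2 * (j * h) + 2 * h + (E / 3) * h := by ring
            omega
          · rw [hV, hcz]
            exact Num.t5 hs0 hs' hy0 hj1z hrz'
      · push Not at hyh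
        refine L.lb hbE ?_
        rw [← hh, hV, hcz]
        exact Num.t6 hs0 hs' hj1z (by exact_mod_cast hyh.le) hrz'
    · push Not at hbE
      have hEh : (3 * j + 2) * h ≤ E * h := Nat.mul_le_mul_right _ hE1
      have e3 : (3 * j + 2) * h = 3 * (j * h) + 2 * h := by ring
      refine ⟨_, L.above hbE (by rw [← hh]; omega) hn, ?_⟩
      rw [← hh]
      have hEhz : 3 * ((j : ℤ) * h) + 2 * h ≤ (E : ℤ) * h := by
        rw [e3] at hEh; exact_mod_cast hEh
      have hbEz : (E : ℤ) * h < c + ((h - s + y : ℕ) : ℤ) := by exact_mod_cast hbE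
      have := Num.q6 (k := (E : ℤ) * h) (c := c) (r := ((h - s + y : ℕ) : ℤ))
        (f0 := ((h : ℤ) - s) * ((h : ℤ) - 5 * s)) (by linarith) (by linarith) (by positivity)
        hrz (by rw [hcz]; exact z6 hs0 hs' hj1z) (z7 hs0 hs' (by linarith))
      push_cast at this ⊢
      exact this

end Pool.Agent.GL
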